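import Pool.Agent.H84Exp.Def

/-! # Two smooth pieces of a `C^r` function have the same `r`-jet at common points -/

namespace Pool.Agent.H84Exp

variable {s : ℕ}

/-- the terms of a Taylor series of `f` on a neighbourhood of `x` in `Ω` are the derivatives at `x`
of every smooth function that agrees with `f` on a convex body `A ⊆ Ω` through `x` -/
theorem taylor_eq_of_piece {r : ℕ} {Ω A u : Set (Pt s)} {f p : Pt s → ℝ}
    {t : Pt s → FormalMultilinearSeries ℝ (Pt s) ℝ}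
    (hA : A ⊆ Ω) (hAc : Convex ℝ A) (hAi : (interior A).Nonempty)
    (hp : ContDiff ℝ (r : WithTop ℕ∞) p) (hfp : ∀ x ∈ A, f x = p x)
    {x : Pt s} (hxA : x ∈ A) (hu : u ∈ nhdsWithin x Ω)
    (ht : HasFTaylorSeriesUpToOn (r : WithTop ℕ∞) f t u) {m : ℕ} (hm : m ≤ r) :
    t x m = iteratedFDeriv ℝ m p x := by
  obtain ⟨ε, hε, hball⟩ := Metric.mem_nhdsWithin_iff.1 hu
  set A' : Set (Pt s) := A ∩ Metric.ball x ε with hA'
  have hsub : A' ⊆ u := fun y hy => hball ⟨hy.2, hA hy.1⟩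
  have hx' : x ∈ A' := ⟨hxA, Metric.mem_ball_self hε⟩
  have hconv : Convex ℝ A' := hAc.inter (convex_ball x ε)
  have hint : (interior A').Nonempty := by
    have hcl : x ∈ closure (interior A) := by
      rw [hAc.closure_interior_eq_closure_of_nonempty_interior hAi]
      exact subset_closure hxA
    obtain ⟨y, hyb, hyi⟩ := (mem_closure_iff.1 hcl) (Metric.ball x ε) Metric.isOpen_ball
      (Metric.mem_ball_self hε)
    refine ⟨y, ?_⟩
    rw [hA', interior_inter, Metric.isOpen_ball.interior_eq]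
    exact ⟨hyi, hyb⟩
  have hud : UniqueDiffOn ℝ A' := uniqueDiffOn_convex hconv hint
  have h1 := (ht.mono hsub).eq_iteratedFDerivWithin_of_uniqueDiffOn
    (m := m) (by exact_mod_cast hm) hud hx'
  rw [h1, iteratedFDerivWithin_congr (fun y hy => hfp y hy.1) hx' m]
  exact iteratedFDerivWithin_eq_iteratedFDeriv hud
    (hp.of_le (by exact_mod_cast hm)).contDiffAt hx'

theorem iteratedFDeriv_eq_of_pieces {r : ℕ} {Ω A B : Set (Pt s)} {f p q : Pt s → ℝ}
    (hf : ContDiffOn ℝ (r : WithTop ℕ∞) f Ω) (hA : A ⊆ Ω) (hB : B ⊆ Ω)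
    (hAc : Convex ℝ A) (hAi : (interior A).Nonempty)
    (hBc : Convex ℝ B) (hBi : (interior B).Nonempty)
    (hp : ContDiff ℝ (r : WithTop ℕ∞) p) (hq : ContDiff ℝ (r : WithTop ℕ∞) q)
    (hfp : ∀ x ∈ A, f x = p x) (hfq : ∀ x ∈ B, f x = q x)
    {x : Pt s} (hxA : x ∈ A) (hxB : x ∈ B) {m : ℕ} (hm : m ≤ r) :
    iteratedFDeriv ℝ m p x = iteratedFDeriv ℝ m q x := by
  obtain ⟨u, hu, t, ht⟩ := (contDiffWithinAt_nat (n := r)).1 (hf x (hA hxA))
  rw [Set.insert_eq_of_mem (hA hxA)] at hu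
  rw [← taylor_eq_of_piece hA hAc hAi hp hfp hxA hu ht hm,
    ← taylor_eq_of_piece hB hBc hBi hq hfq hxB hu ht hm]

end Pool.Agent.H84Exp
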