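import Pool.Agent.H84Exp.SmA
import Pool.Agent.H84Exp.SmB

/-! # Every spline has a family of cell polynomials with matching jets -/

namespace Pool.Agent.H84Exp

open MvPolynomial Pool.Agent.H84Spl

variable {s : ℕ}

theorem interior_cell_nonempty (T : Triang s) {σ : Finset (Pt s)} (hσ : σ ∈ T.cells) :
    (interior (convexHull ℝ (σ : Set (Pt s)))).Nonempty := by
  rw [interior_convexHull_nonempty_iff_affineSpan_eq_top]
  have h := (T.indep σ hσ).affineSpan_eq_top_iff_card_eq_finrank_add_one.2 (by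
    rw [Fintype.card_coe, T.card_eq σ hσ, Module.finrank_fin_fun])
  have h2 : Set.range (fun v : σ => (v : Pt s)) = (σ : Set (Pt s)) := by
    ext x; simp
  rwa [h2] at h

/-- a polynomial vanishing on a cell is zero -/
theorem eq_zero_of_vanish_cell (T : Triang s) {σ : Finset (Pt s)} (hσ : σ ∈ T.cells)
    {D : MvPolynomial (Fin s) ℝ}
    (h : ∀ x ∈ convexHull ℝ (σ : Set (Pt s)), eval x D = 0) : D = 0 := by
  obtain ⟨x0, hx0⟩ := interior_cell_nonempty T hσ
  obtain ⟨ρ, hρ, hball⟩ := Metric.isOpen_iff.1 isOpen_interior x0 hx0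
  refine MvPolynomial.funext_set (fun i => Set.Icc (x0 i - ρ / 2) (x0 i + ρ / 2))
    (fun i => Set.Icc_infinite (by linarith)) ?_
  intro x hx
  rw [h x, map_zero]
  apply interior_subset
  apply hball
  rw [Metric.mem_ball]
  refine lt_of_le_of_lt ((dist_pi_le_iff (by positivity : (0 : ℝ) ≤ ρ / 2)).2 fun i => ?_)
    (by linarith : ρ / 2 < ρ)
  have hi : x0 i - ρ / 2 ≤ x i ∧ x i ≤ x0 i + ρ / 2 := by
    simpa using hx i (Set.mem_univ i)
  rw [Real.dist_eq, abs_le]
  constructor <;> linarith [hi.1, hi.2]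

theorem exists_fam (T : Triang s) {r k : ℕ} {f : Pt s → ℝ} (hf : f ∈ T.splineSpace r k) :
    ∃ P : Finset (Pt s) → MvPolynomial (Fin s) ℝ, Fam T r k f P := by
  classical
  obtain ⟨hf1, -, hf3⟩ := hf
  choose! P hPdeg hPf using hf3
  refine ⟨P, fun σ hσ => ⟨hPdeg σ hσ, hPf σ hσ⟩, ?_⟩
  intro σ hσ τ hτ
  have hsub : ∀ σ ∈ T.cells, convexHull ℝ (σ : Set (Pt s)) ⊆ T.region :=
    fun σ hσ x hx => ⟨σ, hσ, hx⟩
  refine VO_of_iteratedFDeriv ?_
  rintro x ⟨hxσ, hxτ⟩ m hm
  have key := iteratedFDeriv_eq_of_pieces (f := f) hf1 (hsub σ hσ) (hsub τ hτ)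
    (convex_convexHull ℝ _) (interior_cell_nonempty T hσ) (convex_convexHull ℝ _)
    (interior_cell_nonempty T hτ) (contDiff_eval (P σ)) (contDiff_eval (P τ))
    (hPf σ hσ) (hPf τ hτ) hxσ hxτ hm
  have e : (fun y : Pt s => eval y (P σ - P τ)) =
      (fun y : Pt s => eval y (P σ)) - fun y : Pt s => eval y (P τ) := by
    funext y
    simp
  rw [e, iteratedFDeriv_sub_apply (contDiff_eval (P σ)).contDiffAt
    (contDiff_eval (P τ)).contDiffAt, key, sub_self]

end Pool.Agent.H84Exp
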