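import Pool.Agent.H84Exp.Def

/-! # Generic points -/

namespace Pool.Agent.H84Exp

open MvPolynomial

variable {s : ℕ}

theorem exists_poly_of_card_le (A : Finset (Pt s)) (hA : A.card ≤ s) :
    ∃ g : MvPolynomial (Fin s) ℝ, g ≠ 0 ∧
      ∀ z ∈ affineSpan ℝ (A : Set (Pt s)), eval z g = 0 := by
  classical
  rcases A.eq_empty_or_nonempty with rfl | ⟨a, ha⟩
  · refine ⟨1, one_ne_zero, ?_⟩
    intro z hz
    rw [Finset.coe_empty, AffineSubspace.span_empty] at hz
    exact absurd hz (AffineSubspace.notMem_bot ℝ _ z)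
  · have hcard : A.card = (A.card - 1) + 1 := by
      have : 0 < A.card := Finset.card_pos.2 ⟨a, ha⟩
      omega
    have h1 : Module.finrank ℝ (vectorSpan ℝ (A : Set (Pt s))) ≤ A.card - 1 := by
      have := finrank_vectorSpan_image_finset_le ℝ (id : Pt s → Pt s) A hcard
      rw [Finset.image_id] at this
      exact this
    have h2 : Module.finrank ℝ (vectorSpan ℝ (A : Set (Pt s))) < Module.finrank ℝ (Pt s) := by
      have h3 : Module.finrank ℝ (Pt s) = s := by simp
      omega
    have h3 : vectorSpan ℝ (A : Set (Pt s)) < ⊤ := Submodule.lt_top_of_finrank_lt_finrank h2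
    obtain ⟨f, hf0, hf⟩ := Submodule.exists_le_ker_of_lt_top _ h3
    have hev : ∀ z : Pt s, eval z (∑ i, C (f (Pi.single i 1)) * X i - C (f a)) = f z - f a := by
      intro z
      have hz : f z = ∑ i, f (Pi.single i 1) * z i := by
        have hz1 : z = ∑ i, z i • (Pi.single i 1 : Pt s) := by
          ext j
          simp [Finset.sum_apply, Pi.single_apply]
        conv_lhs => rw [hz1]
        rw [map_sum]
        refine Finset.sum_congr rfl fun i _ => ?_
        rw [map_smul, smul_eq_mul, mul_comm]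
      rw [hz]
      simp [map_sum]
    refine ⟨∑ i, C (f (Pi.single i 1)) * X i - C (f a), ?_, ?_⟩
    · intro h0
      apply hf0
      have h4 : ∀ z : Pt s, f z - f a = 0 := by
        intro z
        rw [← hev z, h0, map_zero]
      have h5 : f a = 0 := by
        have := h4 0
        rw [map_zero] at this
        linarith
      ext i
      have := h4 (Pi.single i 1)
      rw [h5] at this
      simpa using this
    · intro z hz
      rw [hev]
      have h6 : z - a ∈ vectorSpan ℝ (A : Set (Pt s)) := by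
        rw [← direction_affineSpan]
        exact AffineSubspace.vsub_mem_direction hz (subset_affineSpan ℝ _ ha)
      have h7 := hf h6
      rw [LinearMap.mem_ker, map_sub] at h7
      exact h7

theorem exists_mem_open {U : Set (Pt s)} (hU : IsOpen U) (hne : U.Nonempty)
    {g : MvPolynomial (Fin s) ℝ} (hg : g ≠ 0) : ∃ z ∈ U, eval z g ≠ 0 := by
  by_contra hcon
  push Not at hcon
  obtain ⟨x, hx⟩ := hne
  obtain ⟨ε, hε, hb⟩ := Metric.isOpen_iff.1 hU x hx
  apply hg
  refine MvPolynomial.funext_set (fun i => Set.Ioo (x i - ε / 2) (x i + ε / 2))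
    (fun i => Set.Ioo_infinite (by linarith)) ?_
  intro y hy
  rw [map_zero]
  apply hcon
  apply hb
  rw [Metric.mem_ball]
  have h1 : dist y x ≤ ε / 2 := by
    rw [dist_pi_le_iff (by positivity)]
    intro i
    have h2 := hy i (Set.mem_univ i)
    rw [Set.mem_Ioo] at h2
    rw [Real.dist_eq, abs_le]
    constructor <;> linarith [h2.1, h2.2]
  linarith

theorem exists_generic {U : Set (Pt s)} (hU : IsOpen U) (hne : U.Nonempty)
    {g : MvPolynomial (Fin s) ℝ} (hg : g ≠ 0) (𝒜 : Finset (Finset (Pt s)))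
    (h𝒜 : ∀ A ∈ 𝒜, A.card ≤ s) :
    ∃ z ∈ U, eval z g ≠ 0 ∧ ∀ A ∈ 𝒜, z ∉ affineSpan ℝ (A : Set (Pt s)) := by
  classical
  have h1 : ∀ A : Finset (Pt s), ∃ p : MvPolynomial (Fin s) ℝ, p ≠ 0 ∧ (A ∈ 𝒜 →
      ∀ z ∈ affineSpan ℝ (A : Set (Pt s)), eval z p = 0) := by
    intro A
    by_cases hA : A ∈ 𝒜
    · obtain ⟨p, hp, hp'⟩ := exists_poly_of_card_le A (h𝒜 A hA)
      exact ⟨p, hp, fun _ => hp'⟩
    · exact ⟨1, one_ne_zero, fun h => absurd h hA⟩
  choose p hp0 hp using h1
  have h2 : g * ∏ A ∈ 𝒜, p A ≠ 0 :=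
    mul_ne_zero hg (Finset.prod_ne_zero_iff.2 fun A _ => hp0 A)
  obtain ⟨z, hzU, hz⟩ := exists_mem_open hU hne h2
  rw [map_mul, map_prod] at hz
  refine ⟨z, hzU, left_ne_zero_of_mul hz, ?_⟩
  intro A hA hzA
  exact (Finset.prod_ne_zero_iff.1 (right_ne_zero_of_mul hz) A hA) (hp A hA z hzA)

end Pool.Agent.H84Exp
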