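import Pool.Agent.H84Exp.Sep

/-! # Cones from points near the centroid of a face -/

namespace Pool.Agent.H84Exp

variable {s : ℕ}

/-- the centroid of a finite set of points -/
noncomputable def cen (F : Finset (Pt s)) : Pt s := ((F.card : ℝ)⁻¹) • ∑ v ∈ F, v

theorem cen_mem {F : Finset (Pt s)} (hF : F.Nonempty) :
    cen F ∈ convexHull ℝ (F : Set (Pt s)) := by
  have hc : (F.card : ℝ) ≠ 0 := by exact_mod_cast hF.card_pos.ne'
  rw [Finset.mem_convexHull']
  refine ⟨fun _ => (F.card : ℝ)⁻¹, fun _ _ => by positivity, ?_, ?_⟩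
  · rw [Finset.sum_const, nsmul_eq_mul, mul_inv_cancel₀ hc]
  · rw [cen, Finset.smul_sum]

theorem nbhd (S G F : Finset (Pt s)) (hS : AffineIndependent ℝ (fun v : S => (v : Pt s)))
    (hG : AffineIndependent ℝ (fun v : G => (v : Pt s)))
    (h : convexHull ℝ (S : Set (Pt s)) ∩ convexHull ℝ (G : Set (Pt s)) =
      convexHull ℝ ((S : Set (Pt s)) ∩ (G : Set (Pt s))))
    (hFS : F ⊆ S) (hF : F.Nonempty) (hFG : ¬ F ⊆ G) :
    ∀ᶠ z in nhds (cen F),
      convexHull ℝ (insert z (S : Set (Pt s))) ∩ convexHull ℝ (G : Set (Pt s)) ⊆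
        convexHull ℝ ((S : Set (Pt s)) ∩ (G : Set (Pt s))) := by
  obtain ⟨f, c, h1, h2, h3⟩ := sep S G hS hG h
  have hS' : ∀ x ∈ S, c ≤ f x := by
    intro x hx
    by_cases hxG : x ∈ G
    · exact (h1 x hx hxG).ge
    · exact (h2 x hx hxG).le
  have hG' : ∀ x ∈ G, f x ≤ c := by
    intro x hx
    by_cases hxS : x ∈ S
    · exact (h1 x hxS hx).le
    · exact (h3 x hx hxS).le
  have hSc : ∀ x ∈ convexHull ℝ (S : Set (Pt s)), c ≤ f x := by
    intro x hx
    have hcv : Convex ℝ {y : Pt s | c ≤ f y} := convex_halfSpace_ge f.isLinear c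
    exact convexHull_min (fun y hy => hS' y (Finset.mem_coe.1 hy)) hcv hx
  have hGc : ∀ x ∈ convexHull ℝ (G : Set (Pt s)), f x ≤ c := by
    intro x hx
    have hcv : Convex ℝ {y : Pt s | f y ≤ c} := convex_halfSpace_le f.isLinear c
    exact convexHull_min (fun y hy => hG' y (Finset.mem_coe.1 hy)) hcv hx
  have hcen : c < f (cen F) := by
    have hc : 0 < (F.card : ℝ) := by exact_mod_cast hF.card_pos
    rw [cen, map_smul, map_sum, smul_eq_mul, lt_inv_mul_iff₀ hc]
    obtain ⟨x0, hx0, hx0G⟩ := Finset.not_subset.1 hFG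
    have : ∑ _x ∈ F, c < ∑ x ∈ F, f x :=
      Finset.sum_lt_sum (fun x hx => hS' x (hFS hx)) ⟨x0, hx0, h2 x0 (hFS hx0) hx0G⟩
    rwa [Finset.sum_const, nsmul_eq_mul] at this
  have hev : ∀ᶠ z in nhds (cen F), c < f z := f.continuous.continuousAt.eventually
    (isOpen_Ioi.mem_nhds hcen)
  filter_upwards [hev] with z hz
  rintro x ⟨hxz, hxG⟩
  have hSne : (S : Set (Pt s)).Nonempty := (hF.mono hFS)
  rw [convexHull_insert hSne, mem_convexJoin] at hxz
  obtain ⟨z', hz', y, hy, hxy⟩ := hxz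
  rw [Set.mem_singleton_iff] at hz'
  subst hz'
  obtain ⟨a, b, ha, hb, hab, rfl⟩ := hxy
  have h4 := hGc _ hxG
  rw [map_add, map_smul, map_smul, smul_eq_mul, smul_eq_mul] at h4
  have h5 := hSc y hy
  have ha0 : a = 0 := by
    by_contra hne
    have hapos : 0 < a := lt_of_le_of_ne ha (Ne.symm hne)
    have h6 : 0 < a * (f z' - c) := mul_pos hapos (sub_pos.2 hz)
    have h7 : 0 ≤ b * (f y - c) := mul_nonneg hb (sub_nonneg.2 h5)
    have h8 : a * (f z' - c) + b * (f y - c) = a * f z' + b * f y - (a + b) * c := by ring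
    rw [hab, one_mul] at h8
    linarith
  have hb1 : b = 1 := by linarith
  rw [← h]
  refine ⟨?_, hxG⟩
  rw [ha0, hb1, zero_smul, one_smul, zero_add]
  exact hy

end Pool.Agent.H84Exp
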