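import Pool.Agent.H84Exp.ExtC
import Pool.Agent.H84Exp.Gen
import Pool.Agent.H84Exp.Nbhd

/-! # Adding a generic vertex near the centroid of a face, or anywhere -/

namespace Pool.Agent.H84Exp

open MvPolynomial

variable {s : ℕ}

/-- a generic new vertex in the nonempty open set `V`, all points of which are good for the faces
not containing `F` -/
theorem ext_gen (K : GC s) (hK : ∀ G ∈ K.faces, G.card + 1 ≤ s) (F X : Finset (Pt s))
    (hcard : F.card + 2 ≤ s) (hX : ∀ w ∈ X, K.Fc (insert w F))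
    {V : Set (Pt s)} (hV : IsOpen V) (hne : V.Nonempty)
    (hVF : ∀ w ∈ X, ∀ G ∈ K.faces, ¬ F ⊆ G → ∀ z ∈ V,
      convexHull ℝ (insert z ((insert w F : Finset (Pt s)) : Set (Pt s))) ∩
        convexHull ℝ (G : Set (Pt s)) ⊆
        convexHull ℝ (((insert w F : Finset (Pt s)) : Set (Pt s)) ∩ (G : Set (Pt s))))
    {g : MvPolynomial (Fin s) ℝ} (hg : g ≠ 0) :
    ∃ z ∈ V, eval z g ≠ 0 ∧
      ∃ K' : GC s, K'.faces = K.faces ∪ X.image (fun w => insert z (insert w F)) := by
  let 𝒜 : Finset (Finset (Pt s)) :=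
    ((X ×ˢ X).image fun p => insert p.1 (insert p.2 F)) ∪
      ((X ×ˢ K.faces).image fun p => insert p.1 p.2)
  have h𝒜 : ∀ A ∈ 𝒜, A.card ≤ s := by
    intro A hA
    rcases Finset.mem_union.1 hA with hA | hA
    · obtain ⟨p, _, rfl⟩ := Finset.mem_image.1 hA
      have h1 := Finset.card_insert_le p.1 (insert p.2 F)
      have h2 := Finset.card_insert_le p.2 F
      omega
    · obtain ⟨p, hp, rfl⟩ := Finset.mem_image.1 hA
      have h1 := Finset.card_insert_le p.1 p.2
      have h2 := hK p.2 (Finset.mem_product.1 hp).2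
      omega
  obtain ⟨z, hzV, hgz, hz⟩ := exists_generic hV hne hg 𝒜 h𝒜
  refine ⟨z, hzV, hgz, ext_core K F X z hX ?_ ?_⟩
  · intro w hw w' hw'
    refine hz _ (Finset.mem_union_left _ (Finset.mem_image.2 ⟨(w, w'), ?_, rfl⟩))
    exact Finset.mem_product.2 ⟨hw, hw'⟩
  · intro w hw G hG
    by_cases hFG : F ⊆ G
    · refine conv_insert_inter_of_notMem
        (K.fc_inter (hX w hw) ⟨G, hG, Finset.Subset.refl G⟩) ?_
      have h1 : ((insert w F : Finset (Pt s)) : Set (Pt s)) ∪ (G : Set (Pt s)) =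
          ((insert w G : Finset (Pt s)) : Set (Pt s)) := by
        rw [← Finset.coe_union, Finset.insert_union, Finset.union_eq_right.2 hFG]
      rw [h1]
      refine hz _ (Finset.mem_union_right _ (Finset.mem_image.2 ⟨(w, G), ?_, rfl⟩))
      exact Finset.mem_product.2 ⟨hw, hG⟩
    · exact hVF w hw G hG hFG z hzV

/-- a new vertex near the centroid of the nonempty face `F`, joined to `F ∪ {w}`, `w ∈ X` -/
theorem ext1 (K : GC s) (hK : ∀ G ∈ K.faces, G.card + 1 ≤ s) (F X : Finset (Pt s))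
    (hF : F.Nonempty) (hcard : F.card + 2 ≤ s) (hX : ∀ w ∈ X, K.Fc (insert w F))
    {U : Set (Pt s)} (hU : IsOpen U) (hc : cen F ∈ U)
    {g : MvPolynomial (Fin s) ℝ} (hg : g ≠ 0) :
    ∃ z ∈ U, eval z g ≠ 0 ∧
      ∃ K' : GC s, K'.faces = K.faces ∪ X.image (fun w => insert z (insert w F)) := by
  have h1 : ∀ᶠ z in nhds (cen F), z ∈ U ∧ ∀ w ∈ X, ∀ G ∈ K.faces, ¬ F ⊆ G →
      convexHull ℝ (insert z ((insert w F : Finset (Pt s)) : Set (Pt s))) ∩
        convexHull ℝ (G : Set (Pt s)) ⊆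
        convexHull ℝ (((insert w F : Finset (Pt s)) : Set (Pt s)) ∩ (G : Set (Pt s))) := by
    refine Filter.Eventually.and (hU.mem_nhds hc) ?_
    rw [Filter.eventually_all_finset]
    intro w hw
    rw [Filter.eventually_all_finset]
    intro G hG
    by_cases hFG : F ⊆ G
    · exact Filter.Eventually.of_forall fun z h => absurd hFG h
    · refine (nbhd (insert w F) G F (K.fc_indep (hX w hw)) (K.indep G hG)
        (K.fc_inter (hX w hw) ⟨G, hG, Finset.Subset.refl G⟩)
        (Finset.subset_insert w F) hF hFG).mono ?_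
      intro z hz _
      exact hz
  obtain ⟨V, hVs, hV, hcV⟩ := eventually_nhds_iff.1 h1
  obtain ⟨z, hzV, hgz, hK'⟩ := ext_gen K hK F X hcard hX hV ⟨_, hcV⟩
    (fun w hw G hG hFG z hz => (hVs z hz).2 w hw G hG hFG) hg
  exact ⟨z, (hVs z hzV).1, hgz, hK'⟩

/-- a new vertex in the open set `U`, joined to the vertices of `X` -/
theorem ext0 (K : GC s) (hs : 2 ≤ s) (hK : ∀ G ∈ K.faces, G.card + 1 ≤ s)
    (X : Finset (Pt s)) (hX : ∀ w ∈ X, K.Fc (insert w ∅))
    {U : Set (Pt s)} (hU : IsOpen U) (hne : U.Nonempty)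
    {g : MvPolynomial (Fin s) ℝ} (hg : g ≠ 0) :
    ∃ z ∈ U, eval z g ≠ 0 ∧
      ∃ K' : GC s, K'.faces = K.faces ∪ X.image (fun w => insert z (insert w ∅)) :=
  ext_gen K hK ∅ X (by rw [Finset.card_empty]; omega) hX hU hne
    (fun _ _ G _ h => absurd (Finset.empty_subset G) h) hg

end Pool.Agent.H84Exp
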