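import Pool.Agent.H84Exp.Def

/-! # Choosing determining sets point by point -/

namespace Pool.Agent.H84Exp

open MvPolynomial

variable {s : ℕ}

theorem det_of_injective (ρ : ℕ) (Z : Finset (Pt s))
    (h : ∀ G : MvPolynomial (Fin s) ℝ, G.totalDegree ≤ ρ → (∀ z ∈ Z, eval z G = 0) → G = 0) :
    Det ρ Z Set.univ := by
  classical
  let V := restrictTotalDegree (Fin s) ℝ ρ
  let ev : V →ₗ[ℝ] (Z → ℝ) :=
    { toFun := fun G z => eval (z : Pt s) (G : MvPolynomial (Fin s) ℝ)
      map_add' := fun G H => by ext z; simp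
      map_smul' := fun c G => by ext z; simp [smul_eval] }
  have hinj : LinearMap.ker ev = ⊥ := by
    rw [LinearMap.ker_eq_bot']
    intro G hG
    apply Subtype.ext
    apply h G ((mem_restrictTotalDegree _ _ _).1 G.2)
    intro z hz
    exact congrFun hG ⟨z, hz⟩
  obtain ⟨g, hg⟩ := ev.exists_leftInverse_of_injective hinj
  refine ⟨fun z => if hz : z ∈ Z then
    (g (Pi.single ⟨z, hz⟩ 1) : MvPolynomial (Fin s) ℝ) else 0, ?_, ?_⟩
  · intro z
    by_cases hz : z ∈ Z
    · simp only [hz, dif_pos]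
      exact (mem_restrictTotalDegree _ _ _).1 (g (Pi.single ⟨z, hz⟩ 1)).2
    · simp [hz]
  · intro G hG w _
    have h1 : g (ev ⟨G, (mem_restrictTotalDegree _ _ _).2 hG⟩) =
        ⟨G, (mem_restrictTotalDegree _ _ _).2 hG⟩ := by
      have := LinearMap.congr_fun hg ⟨G, (mem_restrictTotalDegree _ _ _).2 hG⟩
      simpa using this
    have h2 : ev ⟨G, (mem_restrictTotalDegree _ _ _).2 hG⟩ =
        ∑ z : Z, (eval (z : Pt s) G) • (Pi.single z (1 : ℝ) : Z → ℝ) := by
      ext z
      simp [ev, Finset.sum_apply, Pi.single_apply]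
    rw [h2, map_sum] at h1
    have h3 := congrArg (fun P : V => eval w (P : MvPolynomial (Fin s) ℝ)) h1
    simp only [Submodule.coe_sum, map_sum, map_smul, SetLike.val_smul, smul_eval] at h3
    rw [← h3, ← Finset.sum_coe_sort Z]
    refine Finset.sum_congr rfl fun z _ => ?_
    have hz : (z : Pt s) ∈ Z := z.2
    simp only [hz, dif_pos]
    rw [mul_comm]

theorem Det.nonempty {ρ : ℕ} {Z : Finset (Pt s)} {Y : Set (Pt s)} (h : Det ρ Z Y)
    (hY : Y.Nonempty) : Z.Nonempty := by
  obtain ⟨ℓ, _, h2⟩ := h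
  obtain ⟨y, hy⟩ := hY
  rw [Finset.nonempty_iff_ne_empty]
  rintro rfl
  have := h2 1 (by simp) y hy
  simp at this

/-- a polynomial of degree at most `ρ` vanishing on the determining set vanishes on `Y` -/
theorem Det.vanish {ρ : ℕ} {Z : Finset (Pt s)} {Y : Set (Pt s)} (h : Det ρ Z Y)
    {G : MvPolynomial (Fin s) ℝ} (hG : G.totalDegree ≤ ρ) (h0 : ∀ z ∈ Z, eval z G = 0)
    {y : Pt s} (hy : y ∈ Y) : eval y G = 0 := by
  obtain ⟨ℓ, _, h2⟩ := h
  rw [h2 G hG y hy]
  exact Finset.sum_eq_zero fun z hz => by rw [h0 z hz, mul_zero]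

/-- polynomials of degree at most `ρ` vanishing on `Z` -/
noncomputable def vanSub (ρ : ℕ) (Z : Finset (Pt s)) :
    Submodule ℝ (restrictTotalDegree (Fin s) ℝ ρ) where
  carrier := {G | ∀ z ∈ Z, eval z (G : MvPolynomial (Fin s) ℝ) = 0}
  add_mem' := fun {a b} ha hb z hz => by
    simp [ha z hz, hb z hz]
  zero_mem' := fun z _ => by simp
  smul_mem' := fun c a ha z hz => by
    simp [smul_eval, ha z hz]

theorem det_induction (ρ : ℕ) (p : Finset (Pt s) → Prop) (h0 : p ∅)
    (hstep : ∀ Z, p Z → ∀ g : MvPolynomial (Fin s) ℝ, g ≠ 0 →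
      ∃ z, eval z g ≠ 0 ∧ p (insert z Z)) :
    ∃ Z, p Z ∧ Det ρ Z Set.univ := by
  have key : ∀ n : ℕ, ∀ Z, p Z → Module.finrank ℝ (vanSub ρ Z) ≤ n →
      ∃ Z, p Z ∧ Det ρ Z Set.univ := by
    intro n
    induction n with
    | zero =>
      intro Z hZ hn
      refine ⟨Z, hZ, det_of_injective ρ Z ?_⟩
      intro G hG hG0
      have hb : vanSub ρ Z = ⊥ := Submodule.finrank_eq_zero.1 (Nat.le_zero.1 hn)
      have hmem : (⟨G, (mem_restrictTotalDegree _ _ _).2 hG⟩ :
          restrictTotalDegree (Fin s) ℝ ρ) ∈ vanSub ρ Z := hG0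
      rw [hb, Submodule.mem_bot] at hmem
      exact congrArg Subtype.val hmem
    | succ n ih =>
      intro Z hZ hn
      by_cases hb : vanSub ρ Z = ⊥
      · refine ⟨Z, hZ, det_of_injective ρ Z ?_⟩
        intro G hG hG0
        have hmem : (⟨G, (mem_restrictTotalDegree _ _ _).2 hG⟩ :
            restrictTotalDegree (Fin s) ℝ ρ) ∈ vanSub ρ Z := hG0
        rw [hb, Submodule.mem_bot] at hmem
        exact congrArg Subtype.val hmem
      · obtain ⟨g, hg, hg0⟩ := Submodule.exists_mem_ne_zero_of_ne_bot hb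
        obtain ⟨z, hz, hpz⟩ := hstep Z hZ (g : MvPolynomial (Fin s) ℝ)
          (fun h => hg0 (Subtype.ext h))
        refine ih (insert z Z) hpz ?_
        have hlt : vanSub ρ (insert z Z) < vanSub ρ Z := by
          refine lt_of_le_of_ne ?_ ?_
          · intro G hG z' hz'
            exact hG z' (Finset.mem_insert_of_mem hz')
          · intro h
            have : g ∈ vanSub ρ (insert z Z) := by rw [h]; exact hg
            exact hz (this z (Finset.mem_insert_self z Z))
        have := Submodule.finrank_lt_finrank_of_lt hlt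
        omega
  exact key _ ∅ h0 le_rfl

end Pool.Agent.H84Exp
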