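import Pool.Agent.H84Exp.Ext1
import Pool.Agent.H84Exp.DetU

/-! # Making a face rich, recursively -/

namespace Pool.Agent.H84Exp

open MvPolynomial

variable {s : ℕ}

theorem CC_mono {𝓕 𝓕' : Finset (Pt s) → Prop} (h : ∀ G, 𝓕 G → 𝓕' G) {r : ℕ}
    {Y : Set (Pt s)} : ∀ (t : ℕ) (F X : Finset (Pt s)), CC 𝓕 r Y t F X → CC 𝓕' r Y t F X := by
  intro t
  induction t with
  | zero =>
    intro F X hC w hw
    exact h _ (hC w hw)
  | succ t ih =>
    intro F X hC
    obtain ⟨Z, hZ, hD, h1, h2, h3⟩ := hC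
    exact ⟨Z, hZ, hD, fun w hw z hz => h _ (h1 w hw z hz), fun w hw => ih _ _ (h2 w hw),
      fun z hz => ih _ _ (h3 z hz)⟩

/-- one face can be made rich -/
def RecP (s r t : ℕ) : Prop :=
  ∀ (K : GC s), (∀ G ∈ K.faces, G.card + 1 ≤ s) → ∀ (F X : Finset (Pt s)), F.Nonempty →
    F.card + t + 2 ≤ s → (∀ w ∈ X, K.Fc (insert w F)) → ∀ U : Set (Pt s), IsOpen U →
    Convex ℝ U → (F : Set (Pt s)) ⊆ U → (X : Set (Pt s)) ⊆ U →
    ∃ K' : GC s, K.faces ⊆ K'.faces ∧ (∀ G ∈ K'.faces, G.card + 1 ≤ s) ∧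
      (∀ G ∈ K'.faces, G ∉ K.faces → (G : Set (Pt s)) ⊆ U) ∧ CC K'.Fc r Set.univ t F X

/-- finitely many faces can be made rich -/
theorem rec_all {r t : ℕ} (hrec : RecP s r t) {ι : Type} (J : Finset ι)
    (F X : ι → Finset (Pt s)) (U : ι → Set (Pt s)) (K : GC s)
    (hK : ∀ G ∈ K.faces, G.card + 1 ≤ s)
    (h : ∀ j ∈ J, (F j).Nonempty ∧ (F j).card + t + 2 ≤ s ∧
      (∀ w ∈ X j, K.Fc (insert w (F j))) ∧ IsOpen (U j) ∧ Convex ℝ (U j) ∧
      (F j : Set (Pt s)) ⊆ U j ∧ (X j : Set (Pt s)) ⊆ U j) :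
    ∃ K' : GC s, K.faces ⊆ K'.faces ∧ (∀ G ∈ K'.faces, G.card + 1 ≤ s) ∧
      (∀ G ∈ K'.faces, G ∉ K.faces → ∃ j ∈ J, (G : Set (Pt s)) ⊆ U j) ∧
      ∀ j ∈ J, CC K'.Fc r Set.univ t (F j) (X j) := by
  classical
  induction J using Finset.induction_on generalizing K with
  | empty =>
    refine ⟨K, subset_rfl, hK, ?_, ?_⟩
    · intro G hG hG'
      exact absurd hG hG'
    · intro j hj
      simp at hj
  | insert j0 J hj0 ih =>
    obtain ⟨hne, hcard, hX, hU, hUc, hFU, hXU⟩ := h j0 (Finset.mem_insert_self _ _)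
    obtain ⟨K1, hK1, hK1c, hK1n, hCC⟩ := hrec K hK (F j0) (X j0) hne hcard hX (U j0) hU hUc hFU hXU
    obtain ⟨K2, hK2, hK2c, hK2n, hCC2⟩ := ih K1 hK1c (fun j hj => by
      obtain ⟨a1, a2, a3, a4, a5, a6, a7⟩ := h j (Finset.mem_insert_of_mem hj)
      exact ⟨a1, a2, fun w hw => GC.fc_mono hK1 (a3 w hw), a4, a5, a6, a7⟩)
    refine ⟨K2, hK1.trans hK2, hK2c, ?_, ?_⟩
    · intro G hG hG'
      by_cases hG1 : G ∈ K1.faces
      · exact ⟨j0, Finset.mem_insert_self _ _, hK1n G hG1 hG'⟩
      · obtain ⟨j, hj, hGj⟩ := hK2n G hG hG1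
        exact ⟨j, Finset.mem_insert_of_mem hj, hGj⟩
    · intro j hj
      rcases Finset.mem_insert.1 hj with rfl | hj
      · exact CC_mono (fun G hG => GC.fc_mono hK2 hG) _ _ _ hCC
      · exact hCC2 j hj

theorem recP (s r t : ℕ) : RecP s r t := by
  induction t with
  | zero =>
    intro K hK F X _ _ hX U _ _ _ _
    refine ⟨K, subset_rfl, hK, fun G hG hG' => absurd hG hG', ?_⟩
    intro w hw
    exact hX w hw
  | succ t ih =>
    intro K hK F X hF hcard hX U hU hUc hFU hXU
    obtain ⟨Z, ⟨K1, hK1, hK1c, hK1n, hZU, hZf⟩, hdet⟩ := det_induction (2 ^ t * r)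
      (fun Z => ∃ K1 : GC s, K.faces ⊆ K1.faces ∧ (∀ G ∈ K1.faces, G.card + 1 ≤ s) ∧
        (∀ G ∈ K1.faces, G ∉ K.faces → (G : Set (Pt s)) ⊆ U) ∧ (Z : Set (Pt s)) ⊆ U ∧
        ∀ w ∈ X, ∀ z ∈ Z, K1.Fc (insert z (insert w F)))
      ⟨K, subset_rfl, hK, fun G hG hG' => absurd hG hG', by simp, by simp⟩
      (by
        rintro Z ⟨K1, hK1, hK1c, hK1n, hZU, hZf⟩ g hg
        have hc : cen F ∈ U := (hUc.convexHull_subset_iff.2 hFU) (cen_mem hF)
        obtain ⟨z, hzU, hzg, K2, hK2⟩ := ext1 K1 hK1c F X hF (by omega)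
          (fun w hw => GC.fc_mono hK1 (hX w hw)) hU hc hg
        have hK12 : K1.faces ⊆ K2.faces := by rw [hK2]; exact Finset.subset_union_left
        refine ⟨z, hzg, K2, hK1.trans hK12, ?_, ?_, ?_, ?_⟩
        · intro G hG
          rw [hK2, Finset.mem_union, Finset.mem_image] at hG
          rcases hG with hG | ⟨w, hw, rfl⟩
          · exact hK1c G hG
          · have h1 := Finset.card_insert_le z (insert w F)
            have h2 := Finset.card_insert_le w F
            omega
        · intro G hG hG'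
          rw [hK2, Finset.mem_union, Finset.mem_image] at hG
          rcases hG with hG | ⟨w, hw, rfl⟩
          · exact hK1n G hG hG'
          · intro y hy
            rw [Finset.mem_coe, Finset.mem_insert, Finset.mem_insert] at hy
            rcases hy with rfl | rfl | hy
            · exact hzU
            · exact hXU hw
            · exact hFU hy
        · intro y hy
          rw [Finset.mem_coe, Finset.mem_insert] at hy
          rcases hy with rfl | hy
          · exact hzU
          · exact hZU hy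
        · intro w hw z' hz'
          rw [Finset.mem_insert] at hz'
          rcases hz' with rfl | hz'
          · refine ⟨_, ?_, subset_rfl⟩
            rw [hK2, Finset.mem_union, Finset.mem_image]
            exact Or.inr ⟨w, hw, rfl⟩
          · exact GC.fc_mono hK12 (hZf w hw z' hz'))
    have hKX : ∀ w ∈ X, K1.Fc (insert w F) := fun w hw => GC.fc_mono hK1 (hX w hw)
    obtain ⟨K2, hK2, hK2c, hK2n, hCC2⟩ := rec_all ih X (fun w => insert w F)
      (fun w => insert w Z) (fun _ => U) K1 hK1c (fun w hw => by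
        refine ⟨Finset.insert_nonempty _ _, ?_, ?_, hU, hUc, ?_, ?_⟩
        · have h2 := Finset.card_insert_le w F
          omega
        · intro v hv
          rw [Finset.mem_insert] at hv
          rcases hv with rfl | hv
          · rw [Finset.insert_eq_of_mem (Finset.mem_insert_self _ _)]
            exact hKX _ hw
          · exact hZf w hw v hv
        · intro y hy
          rw [Finset.mem_coe, Finset.mem_insert] at hy
          rcases hy with rfl | hy
          · exact hXU hw
          · exact hFU hy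
        · intro y hy
          rw [Finset.mem_coe, Finset.mem_insert] at hy
          rcases hy with rfl | hy
          · exact hXU hw
          · exact hZU hy)
    obtain ⟨K3, hK3, hK3c, hK3n, hCC3⟩ := rec_all ih Z (fun z => insert z F)
      (fun _ => X) (fun _ => U) K2 hK2c (fun z hz => by
        refine ⟨Finset.insert_nonempty _ _, ?_, ?_, hU, hUc, ?_, hXU⟩
        · have h2 := Finset.card_insert_le z F
          omega
        · intro w hw
          rw [Finset.insert_comm]
          exact GC.fc_mono hK2 (hZf w hw z hz)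
        · intro y hy
          rw [Finset.mem_coe, Finset.mem_insert] at hy
          rcases hy with rfl | hy
          · exact hZU hz
          · exact hFU hy)
    refine ⟨K3, (hK1.trans hK2).trans hK3, hK3c, ?_, ?_⟩
    · intro G hG hG'
      by_cases hG2 : G ∈ K2.faces
      · by_cases hG1 : G ∈ K1.faces
        · exact hK1n G hG1 hG'
        · obtain ⟨_, _, h⟩ := hK2n G hG2 hG1
          exact h
      · obtain ⟨_, _, h⟩ := hK3n G hG hG2
        exact h
    · refine ⟨Z, Set.subset_univ _, hdet, ?_, ?_, ?_⟩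
      · intro w hw z hz
        exact GC.fc_mono (hK2.trans hK3) (hZf w hw z hz)
      · intro w hw
        exact CC_mono (fun G hG => GC.fc_mono hK3 hG) _ _ _ (hCC2 w hw)
      · intro z hz
        exact hCC3 z hz

end Pool.Agent.H84Exp
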