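import Pool.Agent.H84Exp.Def

/-! # Stars are thin in one coordinate -/

namespace Pool.Agent.H84Exp

open Pool.Agent.H84Spl

variable {s : ℕ}

theorem convex_slab59 (i0 : Fin s) (y : Pt s) (w : ℝ) :
    Convex ℝ {x : Pt s | |x i0 - y i0| ≤ w} := by
  intro a ha b hb p q hp hq hpq
  simp only [Set.mem_ofPred_eq] at ha hb ⊢
  rw [abs_le] at ha hb ⊢
  have e : (p • a + q • b) i0 = p * a i0 + q * b i0 := by simp
  have e2 : y i0 = p * y i0 + q * y i0 := by rw [← add_mul, hpq, one_mul]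
  rw [e]
  constructor
  · have h1 := mul_le_mul_of_nonneg_left ha.1 hp
    have h2 := mul_le_mul_of_nonneg_left hb.1 hq
    nlinarith
  · have h1 := mul_le_mul_of_nonneg_left ha.2 hp
    have h2 := mul_le_mul_of_nonneg_left hb.2 hq
    nlinarith

theorem cell_thin59 (i0 : Fin s) (w : ℝ) {σ : Finset (Pt s)}
    (h : ∀ u ∈ σ, ∀ v ∈ σ, |u i0 - v i0| ≤ w) {x y : Pt s}
    (hx : x ∈ convexHull ℝ (σ : Set (Pt s))) (hy : y ∈ convexHull ℝ (σ : Set (Pt s))) :
    |x i0 - y i0| ≤ w := by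
  have h1 : ∀ u ∈ σ, |y i0 - u i0| ≤ w := by
    intro u hu
    exact convexHull_min (s := (σ : Set (Pt s))) (fun v hv => h v hv u hu)
      (convex_slab59 i0 u w) hy
  exact convexHull_min (s := (σ : Set (Pt s)))
    (fun v hv => by
      have := h1 v hv
      rw [abs_sub_comm] at this
      exact this) (convex_slab59 i0 y w) hx

theorem star_thin59 (T : Triang s) (i0 : Fin s) (w : ℝ)
    (h : ∀ σ ∈ T.cells, ∀ u ∈ σ, ∀ v ∈ σ, |u i0 - v i0| ≤ w) (v0 : Pt s) (M : ℕ) :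
    ∀ x ∈ T.star v0 M, |x i0 - v0 i0| ≤ M * w := by
  induction M with
  | zero =>
    intro x hx
    have : x = v0 := hx
    subst this
    simp
  | succ m ih =>
    rintro x ⟨σ, hσ, ⟨y, hy, hy'⟩, hx⟩
    have h1 := ih y hy'
    have h2 := cell_thin59 i0 w (h σ hσ) hx hy
    have h3 := abs_sub_le (x i0) (y i0) (v0 i0)
    push_cast
    linarith

theorem disjoint_star (T : Triang s) (i0 : Fin s) (w : ℝ)
    (h : ∀ σ ∈ T.cells, ∀ u ∈ σ, ∀ v ∈ σ, |u i0 - v i0| ≤ w) (v0 : Pt s) (M : ℕ)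
    {σ : Finset (Pt s)} (hσ : σ ∈ T.cells) {v : Pt s} (hv : v ∈ σ)
    (hfar : ((M : ℝ) + 1) * w < |v i0 - v0 i0|) :
    Disjoint (convexHull ℝ (σ : Set (Pt s))) (T.star v0 M) := by
  rw [Set.disjoint_left]
  intro x hx hx'
  have h1 := star_thin59 T i0 w h v0 M x hx'
  have h2 := cell_thin59 i0 w (h σ hσ) (subset_convexHull ℝ _ hv) hx
  have h3 := abs_sub_le (v i0) (x i0) (v0 i0)
  linarith

end Pool.Agent.H84Exp
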