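import Pool.Agent.H84Exp.Ext1
import Pool.Agent.H84Exp.DetU

/-! # The starting complex: a chain of blocks joined by edges -/

namespace Pool.Agent.H84Exp

open MvPolynomial

variable {s : ℕ}

/-- The one-vertex complex. -/
noncomputable def gcPoint (o : Pt s) : GC s where
  faces := {{o}}
  indep := by
    intro G hG
    rw [Finset.mem_singleton.1 hG]
    haveI : Subsingleton (({o} : Finset (Pt s)) : Type _) :=
      ⟨fun a b => Subtype.ext ((Finset.mem_singleton.1 a.2).trans (Finset.mem_singleton.1 b.2).symm)⟩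
    exact affineIndependent_of_subsingleton ℝ _
  inter := by
    intro G hG H hH
    rw [Finset.mem_singleton.1 hG, Finset.mem_singleton.1 hH]
    simp

theorem slab_nonempty' (i0 : Fin s) (a : ℝ) :
    ({x : Pt s | |x i0 - a| < 1 / 2}).Nonempty :=
  ⟨fun _ => a, by simp⟩

theorem slab_open' (i0 : Fin s) (a b : ℝ) : IsOpen {x : Pt s | |x i0 - a| < b} :=
  isOpen_lt (by fun_prop) continuous_const

/-- one more block -/
theorem start_step (hs : 3 ≤ s) (i0 : Fin s) (ρ j : ℕ) (K : GC s)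
    (hK : ∀ G ∈ K.faces, G.card + 1 ≤ s) (X : Finset (Pt s)) (hX : ∀ w ∈ X, K.Fc {w})
    (hXl : ∀ w ∈ X, |w i0 - ((j : ℝ) + 1)| < 3 / 2) (hXne : X.Nonempty) :
    ∃ (K' : GC s) (Z : Finset (Pt s)), K.faces ⊆ K'.faces ∧ (∀ G ∈ K'.faces, G.card + 1 ≤ s) ∧
      (∀ z ∈ Z, |z i0 - ((j : ℝ) + 1)| < 1 / 2) ∧ (∀ z ∈ Z, ∀ w ∈ X, K'.Fc {w, z}) ∧
      (∀ G ∈ K'.faces, G ∉ K.faces → ∀ x ∈ G, |x i0 - ((j : ℝ) + 1)| < 3 / 2) ∧
      Det ρ Z Set.univ := by
  obtain ⟨Z, ⟨K', h1, h2, h3, h4, h5⟩, hZ⟩ := det_induction ρ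
    (fun Z => ∃ K' : GC s, K.faces ⊆ K'.faces ∧ (∀ G ∈ K'.faces, G.card + 1 ≤ s) ∧
      (∀ z ∈ Z, |z i0 - ((j : ℝ) + 1)| < 1 / 2) ∧ (∀ z ∈ Z, ∀ w ∈ X, K'.Fc {w, z}) ∧
      (∀ G ∈ K'.faces, G ∉ K.faces → ∀ x ∈ G, |x i0 - ((j : ℝ) + 1)| < 3 / 2))
    ⟨K, Finset.Subset.refl _, hK, by simp, by simp, fun G hG hG' => absurd hG hG'⟩ (by
      rintro Z ⟨K1, h1, h2, h3, h4, h5⟩ g hg
      obtain ⟨z, hzU, hzg, K2, hK2⟩ := ext0 K1 (by omega) h2 X
        (fun w hw => by simpa using GC.fc_mono h1 (hX w hw))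
        (slab_open' i0 ((j : ℝ) + 1) (1 / 2)) (slab_nonempty' i0 _) hg
      have hzU' : |z i0 - ((j : ℝ) + 1)| < 1 / 2 := hzU
      have h12 : K1.faces ⊆ K2.faces := by rw [hK2]; exact Finset.subset_union_left
      refine ⟨z, hzg, K2, h1.trans h12, ?_, ?_, ?_, ?_⟩
      · intro G hG
        rw [hK2] at hG
        rcases Finset.mem_union.1 hG with hG | hG
        · exact h2 G hG
        · obtain ⟨w, hw, rfl⟩ := Finset.mem_image.1 hG
          have := Finset.card_insert_le z (insert w (∅ : Finset (Pt s)))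
          have := Finset.card_insert_le w (∅ : Finset (Pt s))
          simp at this
          simp only [insert_empty_eq, Finset.card_singleton] at *
          omega
      · intro y hy
        rcases Finset.mem_insert.1 hy with rfl | hy
        · exact hzU'
        · exact h3 y hy
      · intro y hy w hw
        rcases Finset.mem_insert.1 hy with rfl | hy
        · refine ⟨insert y (insert w ∅), ?_, ?_⟩
          · rw [hK2]
            exact Finset.mem_union_right _ (Finset.mem_image_of_mem _ hw)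
          · intro x hx
            simp only [Finset.mem_insert, Finset.mem_singleton] at hx
            simp only [Finset.mem_insert, insert_empty_eq, Finset.mem_singleton]
            tauto
        · exact GC.fc_mono h12 (h4 y hy w hw)
      · intro G hG hGK x hx
        rw [hK2] at hG
        rcases Finset.mem_union.1 hG with hG | hG
        · exact h5 G hG hGK x hx
        · obtain ⟨w, hw, rfl⟩ := Finset.mem_image.1 hG
          simp only [Finset.mem_insert, insert_empty_eq, Finset.mem_singleton] at hx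
          rcases hx with rfl | rfl
          · linarith
          · exact hXl _ hw)
  exact ⟨K', Z, h1, h2, h3, h4, h5, hZ⟩

/-- `m` blocks -/
theorem start_aux (hs : 3 ≤ s) (i0 : Fin s) (ρ m : ℕ) :
    ∃ (K : GC s) (B : ℕ → Finset (Pt s)), (∀ G ∈ K.faces, G.card + 1 ≤ s) ∧
      B 0 = ∅ ∧ (∀ i, m < i → B i = ∅) ∧
      (∀ i, 1 ≤ i → i ≤ m → Det ρ (B i) Set.univ) ∧
      (∀ i, 1 ≤ i → i ≤ m → ∀ v ∈ B i, |v i0 - (i : ℝ)| < 1 / 2) ∧
      (∀ i, 1 ≤ i → i ≤ m → ∀ v ∈ B i, K.Fc {v}) ∧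
      (∀ i, 1 ≤ i → i + 1 ≤ m → ∀ u ∈ B i, ∀ w ∈ B (i + 1), K.Fc {u, w}) ∧
      (∀ G ∈ K.faces, ∃ i : ℕ, 1 ≤ i ∧ (i ≤ m ∨ m = 0 ∧ i = 1) ∧
        ∀ x ∈ G, |x i0 - (i : ℝ)| < 3 / 2) ∧
      ({(0 : Pt s)} ∈ K.faces) := by
  induction m with
  | zero =>
    refine ⟨gcPoint 0, fun _ => ∅, ?_, rfl, fun _ _ => rfl, by omega, by omega, by omega,
      by omega, ?_, Finset.mem_singleton_self _⟩
    · intro G hG
      rw [Finset.mem_singleton.1 hG]
      simp; omega
    · intro G hG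
      rw [Finset.mem_singleton.1 hG]
      refine ⟨1, le_rfl, Or.inr ⟨rfl, rfl⟩, ?_⟩
      intro x hx
      rw [Finset.mem_singleton.1 hx]
      norm_num
  | succ m ih =>
    obtain ⟨K, B, hK, hB0, hBe, hdet, hlev, hv, he, hcov, ho⟩ := ih
    obtain ⟨X, hXK, hXl, hXne, hXB⟩ : ∃ X : Finset (Pt s), (∀ w ∈ X, K.Fc {w}) ∧
        (∀ w ∈ X, |w i0 - ((m : ℝ) + 1)| < 3 / 2) ∧ X.Nonempty ∧ (1 ≤ m → X = B m) := by
      rcases Nat.eq_zero_or_pos m with rfl | hm
      · refine ⟨{0}, ?_, ?_, Finset.singleton_nonempty _, by omega⟩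
        · intro w hw
          rw [Finset.mem_singleton.1 hw]
          exact ⟨_, ho, Finset.Subset.refl _⟩
        · intro w hw
          rw [Finset.mem_singleton.1 hw]
          norm_num
      · refine ⟨B m, hv m hm le_rfl, ?_, (hdet m hm le_rfl).nonempty Set.univ_nonempty,
          fun _ => rfl⟩
        intro w hw
        have := hlev m hm le_rfl w hw
        rw [abs_lt] at this ⊢
        constructor <;> linarith [this.1, this.2]
    obtain ⟨K', Z, h1, h2, h3, h4, h5, hZ⟩ := start_step hs i0 ρ m K hK X hXK hXl hXne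
    refine ⟨K', fun i => if i = m + 1 then Z else B i, h2, ?_, ?_, ?_, ?_, ?_, ?_, ?_, h1 ho⟩
    · simp [hB0]
    · intro i hi
      simp only
      rw [if_neg (by omega)]
      exact hBe i (by omega)
    · intro i hi1 hi2
      simp only
      split_ifs with h
      · exact hZ
      · exact hdet i hi1 (by omega)
    · intro i hi1 hi2 v hv'
      simp only at hv'
      split_ifs at hv' with h
      · subst h
        have := h3 v hv'
        push_cast
        exact this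
      · exact hlev i hi1 (by omega) v hv'
    · intro i hi1 hi2 v hv'
      simp only at hv'
      split_ifs at hv' with h
      · obtain ⟨w, hw⟩ := hXne
        obtain ⟨H, hH, hwH⟩ := h4 v hv' w hw
        exact ⟨H, hH, fun x hx => hwH (by rw [Finset.mem_singleton.1 hx]; simp)⟩
      · exact GC.fc_mono h1 (hv i hi1 (by omega) v hv')
    · intro i hi1 hi2 u hu w hw
      simp only at hu hw
      rw [if_neg (by omega)] at hu
      split_ifs at hw with h
      · have hm : i = m := by omega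
        subst hm
        exact h4 w hw u (by rw [hXB hi1]; exact hu)
      · exact GC.fc_mono h1 (he i hi1 (by omega) u hu w hw)
    · intro G hG
      by_cases hGK : G ∈ K.faces
      · obtain ⟨i, hi1, hi2, hi3⟩ := hcov G hGK
        exact ⟨i, hi1, Or.inl (by omega), hi3⟩
      · refine ⟨m + 1, by omega, Or.inl le_rfl, fun x hx => ?_⟩
        push_cast
        exact h5 G hG hGK x hx

theorem start (hs : 3 ≤ s) (i0 : Fin s) (ρ n : ℕ) (hn : 1 ≤ n) :
    ∃ (K : GC s) (B : ℕ → Finset (Pt s)), (∀ G ∈ K.faces, G.card + 1 ≤ s) ∧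
      B 0 = ∅ ∧ B (n + 1) = ∅ ∧
      (∀ i, 1 ≤ i → i ≤ n → Det ρ (B i) Set.univ) ∧
      (∀ i, 1 ≤ i → i ≤ n → ∀ v ∈ B i, |v i0 - (i : ℝ)| < 1 / 2) ∧
      (∀ i, 1 ≤ i → i ≤ n → ∀ v ∈ B i, K.Fc {v}) ∧
      (∀ i, 1 ≤ i → i + 1 ≤ n → ∀ u ∈ B i, ∀ w ∈ B (i + 1), K.Fc {u, w}) ∧
      (∀ G ∈ K.faces, ∃ i : ℕ, 1 ≤ i ∧ i ≤ n ∧ ∀ x ∈ G, |x i0 - (i : ℝ)| < 3 / 2) ∧
      ∃ G ∈ K.faces, G.Nonempty := by
  obtain ⟨K, B, h1, h2, h3, h4, h5, h6, h7, h8, h9⟩ := start_aux hs i0 ρ n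
  refine ⟨K, B, h1, h2, h3 _ (by omega), h4, h5, h6, h7, ?_, _, h9, Finset.singleton_nonempty _⟩
  intro G hG
  obtain ⟨i, hi1, hi2, hi3⟩ := h8 G hG
  exact ⟨i, hi1, by omega, hi3⟩

end Pool.Agent.H84Exp
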