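import Pool.Agent.H84Exp.ExtC
import Pool.Agent.H84Exp.Gen
import Pool.Agent.H84Exp.Nbhd

/-! # Thickening a complex to a triangulation -/

namespace Pool.Agent.H84Exp

open MvPolynomial Pool.Agent.H84Spl

variable {s : ℕ}

theorem thick_indep_insert {G : Finset (Pt s)} {z : Pt s}
    (hG : AffineIndependent ℝ (fun v : G => (v : Pt s)))
    (hz : z ∉ affineSpan ℝ (G : Set (Pt s))) :
    AffineIndependent ℝ (fun v : (insert z G : Finset (Pt s)) => (v : Pt s)) := by
  classical
  have hzm : z ∈ insert z G := Finset.mem_insert_self z G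
  refine AffineIndependent.affineIndependent_of_notMem_span (i := ⟨z, hzm⟩) ?_ ?_
  · let e : {y : (insert z G : Finset (Pt s)) // y ≠ ⟨z, hzm⟩} ↪ G :=
      ⟨fun y => ⟨(y : (insert z G : Finset (Pt s))), by
        rcases Finset.mem_insert.1 y.1.2 with h | h
        · exact absurd (Subtype.ext h) y.2
        · exact h⟩, fun a b hab => by
          apply Subtype.ext
          apply Subtype.ext
          exact congrArg (fun t : G => (t : Pt s)) hab⟩
    exact hG.comp_embedding e
  · intro hmem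
    apply hz
    refine affineSpan_mono ℝ ?_ hmem
    rintro _ ⟨y, hy, rfl⟩
    rcases Finset.mem_insert.1 y.2 with h | h
    · exact absurd (Subtype.ext h) hy
    · exact h

/-- one step: enlarge the face `G` of an antichain by one point near its centroid -/
theorem thick_step (K : GC s) (hanti : ∀ G ∈ K.faces, ∀ H ∈ K.faces, G ⊆ H → G = H)
    {G : Finset (Pt s)} (hG : G ∈ K.faces) (hne : G.Nonempty) (hcard : G.card ≤ s)
    {U : Set (Pt s)} (hU : IsOpen U) (hUc : Convex ℝ U) (hGU : (G : Set (Pt s)) ⊆ U) :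
    ∃ z ∈ U, z ∉ G ∧ ∃ K' : GC s, K'.faces = insert (insert z G) (K.faces.erase G) ∧
      ∀ G ∈ K'.faces, ∀ H ∈ K'.faces, G ⊆ H → G = H := by
  classical
  have hcU : cen G ∈ U := convexHull_min hGU hUc (cen_mem hne)
  have hev : ∀ᶠ z in nhds (cen G), ∀ H ∈ K.faces.erase G,
      convexHull ℝ (insert z (G : Set (Pt s))) ∩ convexHull ℝ (H : Set (Pt s)) ⊆
        convexHull ℝ ((G : Set (Pt s)) ∩ (H : Set (Pt s))) := by
    rw [Filter.eventually_all_finset]
    intro H hH
    obtain ⟨hHG, hHK⟩ := Finset.mem_erase.1 hH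
    exact nbhd G H G (K.indep G hG) (K.indep H hHK) (K.inter G hG H hHK) (le_refl _) hne
      (fun h => hHG (hanti G hG H hHK h).symm)
  have hev2 := hev.and (hU.mem_nhds hcU)
  obtain ⟨W, hWsub, hWo, hcW⟩ := mem_nhds_iff.1 hev2
  obtain ⟨z, hzW, -, hz⟩ := exists_generic hWo ⟨_, hcW⟩ (one_ne_zero (α := MvPolynomial (Fin s) ℝ))
    {G} (by simpa using hcard)
  have hzG := hz G (Finset.mem_singleton_self G)
  obtain ⟨hzH, hzU⟩ := hWsub hzW
  have hznG : z ∉ G := fun h => hzG (subset_affineSpan ℝ _ h)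
  have hznH : ∀ H ∈ K.faces.erase G, z ∉ H := by
    intro H hH hzH'
    have h1 : z ∈ convexHull ℝ ((G : Set (Pt s)) ∩ (H : Set (Pt s))) :=
      hzH H hH ⟨subset_convexHull ℝ _ (Set.mem_insert _ _), subset_convexHull ℝ _ hzH'⟩
    exact hzG (affineSpan_mono ℝ Set.inter_subset_left (convexHull_subset_affineSpan _ h1))
  have hkey : ∀ H ∈ K.faces.erase G,
      convexHull ℝ ((insert z G : Finset (Pt s)) : Set (Pt s)) ∩ convexHull ℝ (H : Set (Pt s)) =
      convexHull ℝ (((insert z G : Finset (Pt s)) : Set (Pt s)) ∩ (H : Set (Pt s))) := by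
    intro H hH
    apply Set.Subset.antisymm
    · rw [Finset.coe_insert]
      refine (hzH H hH).trans (convexHull_mono ?_)
      exact Set.inter_subset_inter_left _ (Set.subset_insert _ _)
    · exact Set.subset_inter (convexHull_mono Set.inter_subset_left)
        (convexHull_mono Set.inter_subset_right)
  let K' : GC s :=
    { faces := insert (insert z G) (K.faces.erase G)
      indep := by
        intro A hA
        rcases Finset.mem_insert.1 hA with rfl | hA
        · exact thick_indep_insert (K.indep G hG) hzG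
        · exact K.indep A (Finset.mem_of_mem_erase hA)
      inter := by
        intro A hA B hB
        rcases Finset.mem_insert.1 hA with rfl | hA
        · rcases Finset.mem_insert.1 hB with rfl | hB
          · rw [Set.inter_self, Set.inter_self]
          · exact hkey B hB
        · rcases Finset.mem_insert.1 hB with rfl | hB
          · rw [Set.inter_comm, hkey A hA, Set.inter_comm]
          · exact K.inter A (Finset.mem_of_mem_erase hA) B (Finset.mem_of_mem_erase hB) }
  refine ⟨z, hzU, hznG, K', rfl, ?_⟩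
  intro A hA B hB hAB
  have hA' : A ∈ insert (insert z G) (K.faces.erase G) := hA
  have hB' : B ∈ insert (insert z G) (K.faces.erase G) := hB
  rcases Finset.mem_insert.1 hA' with rfl | hA2
  · rcases Finset.mem_insert.1 hB' with rfl | hB2
    · rfl
    · exact absurd (hAB (Finset.mem_insert_self z G)) (hznH B hB2)
  · rcases Finset.mem_insert.1 hB' with rfl | hB2
    · have hAG : A ⊆ G := by
        intro a ha
        rcases Finset.mem_insert.1 (hAB ha) with h | h
        · exact absurd (h ▸ ha) (hznH A hA2)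
        · exact h
      obtain ⟨hne', hAK⟩ := Finset.mem_erase.1 hA2
      exact absurd (hanti A hAK G hG hAG) hne'
    · exact hanti A (Finset.mem_of_mem_erase hA2) B (Finset.mem_of_mem_erase hB2) hAB

theorem thick_aux (𝒰 : Set (Set (Pt s)))
    (h𝒰 : ∀ U ∈ 𝒰, IsOpen U ∧ Convex ℝ U) (n : ℕ) :
    ∀ K : GC s, (∑ G ∈ K.faces, (s + 1 - G.card)) ≤ n →
    (∀ G ∈ K.faces, ∀ H ∈ K.faces, G ⊆ H → G = H) →
    (∀ G ∈ K.faces, G.card ≤ s + 1) → (∀ G ∈ K.faces, G.Nonempty) →
    (∀ G ∈ K.faces, ∃ U ∈ 𝒰, (G : Set (Pt s)) ⊆ U) →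
    ∃ T : Triang s, (∀ G ∈ K.faces, Face T G) ∧
      ∀ σ ∈ T.cells, ∃ U ∈ 𝒰, (σ : Set (Pt s)) ⊆ U := by
  classical
  induction n with
  | zero =>
    intro K hsum hanti hK hne hcov
    have hall : ∀ G ∈ K.faces, G.card = s + 1 := by
      intro G hG
      have h1 : s + 1 - G.card ≤ 0 := (Finset.single_le_sum (f := fun G : Finset (Pt s) =>
        s + 1 - G.card) (fun _ _ => Nat.zero_le _) hG).trans hsum
      have h2 := hK G hG
      omega
    exact ⟨⟨K.faces, hall, K.indep, K.inter⟩, fun G hG => ⟨G, hG, le_refl _⟩, hcov⟩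
  | succ n ih =>
    intro K hsum hanti hK hne hcov
    by_cases hall : ∀ G ∈ K.faces, G.card = s + 1
    · exact ⟨⟨K.faces, hall, K.indep, K.inter⟩, fun G hG => ⟨G, hG, le_refl _⟩, hcov⟩
    · push Not at hall
      obtain ⟨G, hG, hGc⟩ := hall
      have hGs : G.card ≤ s := by
        have := hK G hG
        omega
      obtain ⟨U, hU𝒰, hGU⟩ := hcov G hG
      obtain ⟨z, hzU, hzG, K', hK', hanti'⟩ := thick_step K hanti hG (hne G hG) hGs
        (h𝒰 U hU𝒰).1 (h𝒰 U hU𝒰).2 hGU
      have hcardi : (insert z G).card = G.card + 1 := Finset.card_insert_of_notMem hzG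
      have hsplit : ∑ H ∈ K.faces, (s + 1 - H.card) =
          (s + 1 - G.card) + ∑ H ∈ K.faces.erase G, (s + 1 - H.card) :=
        (Finset.add_sum_erase K.faces (fun H : Finset (Pt s) => s + 1 - H.card) hG).symm
      have hsum' : ∑ H ∈ K'.faces, (s + 1 - H.card) ≤ n := by
        rw [hK']
        by_cases hmem : insert z G ∈ K.faces.erase G
        · rw [Finset.insert_eq_of_mem hmem]
          omega
        · rw [Finset.sum_insert hmem, hcardi]
          omega
      obtain ⟨T, hT1, hT2⟩ := ih K' hsum' hanti' (by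
          intro H hH
          rw [hK'] at hH
          rcases Finset.mem_insert.1 hH with rfl | hH
          · omega
          · exact hK H (Finset.mem_of_mem_erase hH)) (by
          intro H hH
          rw [hK'] at hH
          rcases Finset.mem_insert.1 hH with rfl | hH
          · exact Finset.insert_nonempty z G
          · exact hne H (Finset.mem_of_mem_erase hH)) (by
          intro H hH
          rw [hK'] at hH
          rcases Finset.mem_insert.1 hH with rfl | hH
          · refine ⟨U, hU𝒰, ?_⟩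
            rw [Finset.coe_insert]
            exact Set.insert_subset hzU hGU
          · exact hcov H (Finset.mem_of_mem_erase hH))
      refine ⟨T, ?_, hT2⟩
      intro H hH
      by_cases hHG : H = G
      · subst hHG
        obtain ⟨σ, hσ, hsub⟩ := hT1 (insert z H) (by rw [hK']; exact Finset.mem_insert_self _ _)
        exact ⟨σ, hσ, (Finset.subset_insert z H).trans hsub⟩
      · exact hT1 H (by
          rw [hK']
          exact Finset.mem_insert_of_mem (Finset.mem_erase.2 ⟨hHG, hH⟩))

theorem thick (K : GC s) (hK : ∀ G ∈ K.faces, G.card ≤ s + 1)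
    (hne : ∃ G ∈ K.faces, G.Nonempty) (𝒰 : Set (Set (Pt s)))
    (h𝒰 : ∀ U ∈ 𝒰, IsOpen U ∧ Convex ℝ U)
    (hcov : ∀ G ∈ K.faces, ∃ U ∈ 𝒰, (G : Set (Pt s)) ⊆ U) :
    ∃ T : Triang s, (∀ G ∈ K.faces, Face T G) ∧
      ∀ σ ∈ T.cells, ∃ U ∈ 𝒰, (σ : Set (Pt s)) ⊆ U := by
  classical
  let K0 : GC s :=
    { faces := K.faces.filter (fun G => ∀ H ∈ K.faces, G ⊆ H → G = H)
      indep := fun G hG => K.indep G (Finset.mem_filter.1 hG).1
      inter := fun G hG H hH => K.inter G (Finset.mem_filter.1 hG).1 H (Finset.mem_filter.1 hH).1 }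
  have hK0 : ∀ G, G ∈ K0.faces ↔ G ∈ K.faces ∧ ∀ H ∈ K.faces, G ⊆ H → G = H := by
    intro G
    exact Finset.mem_filter
  have hmax : ∀ G ∈ K.faces, ∃ H ∈ K0.faces, G ⊆ H := by
    intro G hG
    obtain ⟨H, hGH, hH⟩ := K.faces.exists_le_maximal hG
    refine ⟨H, (hK0 H).2 ⟨hH.prop, fun H' hH' hsub => ?_⟩, hGH⟩
    exact le_antisymm hsub (hH.2 hH' hsub)
  obtain ⟨T, hT1, hT2⟩ := thick_aux 𝒰 h𝒰 _ K0 (le_refl _)
    (fun G hG H hH hGH => ((hK0 G).1 hG).2 H ((hK0 H).1 hH).1 hGH)
    (fun G hG => hK G ((hK0 G).1 hG).1) (by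
      intro G hG
      obtain ⟨hGK, hGm⟩ := (hK0 G).1 hG
      obtain ⟨H, hHK, hHne⟩ := hne
      rcases G.eq_empty_or_nonempty with h | h
      · subst h
        have := hGm H hHK (Finset.empty_subset _)
        rw [← this] at hHne
        exact absurd hHne Finset.not_nonempty_empty
      · exact h)
    (fun G hG => hcov G ((hK0 G).1 hG).1)
  refine ⟨T, ?_, hT2⟩
  intro G hG
  obtain ⟨H, hH, hGH⟩ := hmax G hG
  obtain ⟨σ, hσ, hHσ⟩ := hT1 H hH
  exact ⟨σ, hσ, hGH.trans hHσ⟩

end Pool.Agent.H84Exp
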