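import Pool.Agent.H84Exp.ChainT
import Pool.Agent.H84Exp.StarL
import Pool.Agent.H84Exp.Rec
import Pool.Agent.H84Exp.Start
import Pool.Agent.H84Exp.Thick
import Pool.Agent.H84Spl.Final1

/-! # The exponential lower bound -/

namespace Pool.Agent.H84Exp

open MvPolynomial Pool.Agent.H84Spl

variable {s : ℕ}

theorem slab_open (i0 : Fin s) (a b : ℝ) : IsOpen {x : Pt s | |x i0 - a| < b} :=
  isOpen_lt (by fun_prop) continuous_const

theorem slab_convex (i0 : Fin s) (a b : ℝ) : Convex ℝ {x : Pt s | |x i0 - a| < b} := by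
  have : {x : Pt s | |x i0 - a| < b} = (LinearMap.proj i0 : Pt s →ₗ[ℝ] ℝ) ⁻¹' {y | |y - a| < b} := by
    ext x; simp
  rw [this]
  refine Convex.linear_preimage ?_ _
  have : {y : ℝ | |y - a| < b} = Metric.ball a b := by
    ext y; simp [Real.dist_eq]
  rw [this]
  exact convex_ball a b

theorem exists_longChain (hs : 3 ≤ s) (r : ℕ) (M : ℕ) :
    ∃ (T : Triang s) (n : ℕ) (B : ℕ → Finset (Pt s)), 1 ≤ n ∧
      LongChain T r (s - 3) M n Set.univ B := by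
  obtain ⟨n, hn⟩ : ∃ n : ℕ, n = 6 * (M + 1) + 4 := ⟨_, rfl⟩
  obtain ⟨i0, -⟩ : ∃ i0 : Fin s, (i0 : ℕ) = 0 := ⟨⟨0, by omega⟩, rfl⟩
  obtain ⟨K, B, hcard, hB0, hBn, hdet, hlev, hv, he, hcov, hne⟩ :=
    start hs i0 (2 ^ (s - 3) * r) n (by omega)
  have hUo : ∀ i : ℕ, IsOpen {x : Pt s | |x i0 - (i : ℝ)| < 3 / 2} := fun i => slab_open _ _ _
  have hUc : ∀ i : ℕ, Convex ℝ {x : Pt s | |x i0 - (i : ℝ)| < 3 / 2} :=
    fun i => slab_convex _ _ _
  -- the tasks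
  obtain ⟨J, hJ⟩ : ∃ J : Finset (ℕ × Pt s), ∀ j, j ∈ J ↔ 1 ≤ j.1 ∧ j.1 ≤ n ∧ j.2 ∈ B j.1 := by
    refine ⟨(Finset.Icc 1 n).biUnion fun i => (B i).image fun v => (i, v), fun j => ?_⟩
    simp only [Finset.mem_biUnion, Finset.mem_Icc, Finset.mem_image]
    constructor
    · rintro ⟨i, hi, v, hv, rfl⟩
      exact ⟨hi.1, hi.2, hv⟩
    · rintro ⟨h1, h2, h3⟩
      exact ⟨j.1, ⟨h1, h2⟩, j.2, h3, rfl⟩
  have hnb : ∀ i, 1 ≤ i → i ≤ n → ∀ w ∈ B (i - 1) ∪ B (i + 1),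
      ∀ v ∈ B i, K.Fc (insert w {v}) ∧ |w i0 - (i : ℝ)| < 3 / 2 := by
    intro i h1 h2 w hw v hv'
    rcases Finset.mem_union.1 hw with hw | hw
    · by_cases h0 : i = 1
      · subst h0; simp [hB0] at hw
      · have h3 : 1 ≤ i - 1 := by omega
        have h4 : i - 1 + 1 = i := by omega
        have := he (i - 1) h3 (by omega) w hw v (by rw [h4]; exact hv')
        have h5 := hlev (i - 1) h3 (by omega) w hw
        refine ⟨this, ?_⟩
        have h6 : ((i - 1 : ℕ) : ℝ) = (i : ℝ) - 1 := by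
          rw [Nat.cast_sub h1]; simp
        rw [h6] at h5
        rw [abs_lt] at h5 ⊢
        constructor <;> linarith [h5.1, h5.2]
    · by_cases h0 : i = n
      · subst h0; simp [hBn] at hw
      · have := he i h1 (by omega) v hv' w hw
        have h5 := hlev (i + 1) (by omega) (by omega) w hw
        refine ⟨by rwa [Finset.pair_comm] at this, ?_⟩
        push_cast at h5
        rw [abs_lt] at h5 ⊢
        constructor <;> linarith [h5.1, h5.2]
  obtain ⟨K', hKK', hcard', hnew, hCC⟩ := rec_all (recP s r (s - 3)) J (fun j => {j.2})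
    (fun j => insert j.2 (B (j.1 - 1) ∪ B (j.1 + 1)))
    (fun j => {x : Pt s | |x i0 - (j.1 : ℝ)| < 3 / 2}) K hcard (by
      intro j hj
      obtain ⟨h1, h2, h3⟩ := (hJ j).1 hj
      have hvv : |j.2 i0 - (j.1 : ℝ)| < 3 / 2 := by
        have := hlev _ h1 h2 _ h3
        linarith
      refine ⟨Finset.singleton_nonempty _, by simp; omega, ?_, hUo _, hUc _, ?_, ?_⟩
      · intro w hw
        rcases Finset.mem_insert.1 hw with rfl | hw
        · simpa using hv _ h1 h2 _ h3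
        · exact (hnb _ h1 h2 w hw _ h3).1
      · intro x hx
        simp at hx
        subst hx
        exact hvv
      · intro x hx
        rcases Finset.mem_insert.1 (Finset.mem_coe.1 hx) with rfl | hx
        · exact hvv
        · exact (hnb _ h1 h2 x hx _ h3).2)
  obtain ⟨T, hT, hcells⟩ := thick K' (fun G hG => by have := hcard' G hG; omega)
    (by obtain ⟨G, hG, hGne⟩ := hne; exact ⟨G, hKK' hG, hGne⟩)
    {U | ∃ i : ℕ, 1 ≤ i ∧ i ≤ n ∧ U = {x : Pt s | |x i0 - (i : ℝ)| < 3 / 2}}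
    (by rintro U ⟨i, _, _, rfl⟩; exact ⟨hUo i, hUc i⟩)
    (by
      intro G hG
      by_cases hGK : G ∈ K.faces
      · obtain ⟨i, h1, h2, h3⟩ := hcov G hGK
        exact ⟨_, ⟨i, h1, h2, rfl⟩, fun x hx => h3 x hx⟩
      · obtain ⟨j, hj, hGj⟩ := hnew G hG hGK
        obtain ⟨h1, h2, h3⟩ := (hJ j).1 hj
        exact ⟨_, ⟨j.1, h1, h2, rfl⟩, hGj⟩)
  have hFace : ∀ G, K'.Fc G → Face T G := by
    rintro G ⟨H, hH, hGH⟩
    obtain ⟨σ, hσ, hHσ⟩ := hT H hH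
    exact ⟨σ, hσ, hGH.trans hHσ⟩
  have hwidth : ∀ σ ∈ T.cells, ∀ u ∈ σ, ∀ v ∈ σ, |u i0 - v i0| ≤ 3 := by
    intro σ hσ u hu v hv'
    obtain ⟨U, ⟨i, _, _, rfl⟩, hσU⟩ := hcells σ hσ
    have h1 : |u i0 - (i : ℝ)| < 3 / 2 := hσU (Finset.mem_coe.2 hu)
    have h2 : |v i0 - (i : ℝ)| < 3 / 2 := hσU (Finset.mem_coe.2 hv')
    rw [abs_lt] at h1 h2
    rw [abs_le]
    constructor <;> linarith [h1.1, h1.2, h2.1, h2.2]
  refine ⟨T, n, B, by omega, ⟨hB0, hBn, fun i => Set.subset_univ _, hdet, ?_, ?_, ?_⟩⟩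
  · intro i h1 h2
    exact (hdet i h1 h2).nonempty Set.univ_nonempty
  · intro i h1 h2 v hv'
    exact CC_mono hFace _ _ _ (hCC (i, v) ((hJ _).2 ⟨h1, h2, hv'⟩))
  · intro v0 _
    have key : ∀ i : ℕ, 1 ≤ i → i ≤ n → 3 * ((M : ℝ) + 1) + 1 < |(i : ℝ) - v0 i0| →
        ∀ v ∈ B i, ∀ σ ∈ T.cells, v ∈ σ →
          Disjoint (convexHull ℝ (σ : Set (Pt s))) (T.star v0 M) := by
      intro i h1 h2 hfar v hv' σ hσ hvσ
      refine disjoint_star T i0 3 hwidth v0 M hσ hvσ ?_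
      have h3 := hlev i h1 h2 v hv'
      have h4 : |(i : ℝ) - v0 i0| ≤ |v i0 - (i : ℝ)| + |v i0 - v0 i0| := by
        have : (i : ℝ) - v0 i0 = -(v i0 - (i : ℝ)) + (v i0 - v0 i0) := by ring
        rw [this]
        refine (abs_add_le _ _).trans ?_
        rw [abs_neg]
      linarith
    by_cases h : 3 * ((M : ℝ) + 1) + 1 < |((1 : ℕ) : ℝ) - v0 i0|
    · exact ⟨1, le_rfl, by omega, key 1 le_rfl (by omega) h⟩
    · refine ⟨n, by omega, le_rfl, key n (by omega) le_rfl ?_⟩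
      push Not at h
      have h5 : (n : ℝ) = 6 * ((M : ℝ) + 1) + 4 := by rw [hn]; push_cast; ring
      have h6 : (n : ℝ) - 1 ≤ |(n : ℝ) - v0 i0| + |((1 : ℕ) : ℝ) - v0 i0| := by
        have : (n : ℝ) - 1 = ((n : ℝ) - v0 i0) + -(((1 : ℕ) : ℝ) - v0 i0) := by push_cast; ring
        calc (n : ℝ) - 1 ≤ |(n : ℝ) - 1| := le_abs_self _
          _ ≤ _ := by
            rw [this]
            refine (abs_add_le _ _).trans ?_
            rw [abs_neg]
      linarith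

theorem mainB (s r : ℕ) (hs : 3 ≤ s) (hr : 1 ≤ r) :
    (∀ m : ℕ, ∃ T : Triang s,
      Submodule.span ℝ {f | f ∈ T.splineSpace r (2 ^ (s - 2) * r) ∧
        T.LocallySupported m f} ≠ T.splineSpace r (2 ^ (s - 2) * r)) ∧
    ∀ K : ℕ, (∀ k, K ≤ k → HasLocalBases s r k) → 2 ^ (s - 2) * r + 1 ≤ K := by
  have h1 : ∀ m : ℕ, ∃ T : Triang s,
      Submodule.span ℝ {f | f ∈ T.splineSpace r (2 ^ (s - 2) * r) ∧
        T.LocallySupported m f} ≠ T.splineSpace r (2 ^ (s - 2) * r) := by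
    intro m
    obtain ⟨T, n, B, hn, hB⟩ := exists_longChain hs r m
    have := span_ne_of_longChain hr hn hB
    have e : s - 3 + 1 = s - 2 := by omega
    rw [e] at this
    exact ⟨T, this⟩
  refine ⟨h1, fun K hKK => ?_⟩
  by_contra hlt
  obtain ⟨m, _, hm⟩ := hKK (2 ^ (s - 2) * r) (by omega)
  obtain ⟨T, hT⟩ := h1 m
  exact no_local_basis_of_span hT (hm T)

end Pool.Agent.H84Exp
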