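import Pool.Agent.H84Exp.Def

/-! # Adding cone faces to a geometric complex -/

namespace Pool.Agent.H84Exp

variable {s : ℕ}

theorem GC.fc_indep (K : GC s) {G : Finset (Pt s)} (hG : K.Fc G) :
    AffineIndependent ℝ (fun v : G => (v : Pt s)) := by
  obtain ⟨H, hH, hGH⟩ := hG
  exact AffineIndependent.mono (s := (G : Set (Pt s))) (t := (H : Set (Pt s))) (K.indep H hH)
    (Finset.coe_subset.2 hGH)

theorem GC.fc_inter (K : GC s) {G H : Finset (Pt s)} (hG : K.Fc G) (hH : K.Fc H) :
    convexHull ℝ (G : Set (Pt s)) ∩ convexHull ℝ (H : Set (Pt s)) =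
      convexHull ℝ ((G : Set (Pt s)) ∩ (H : Set (Pt s))) := by
  classical
  obtain ⟨G', hG', hGG⟩ := hG
  obtain ⟨H', hH', hHH⟩ := hH
  refine subset_antisymm ?_ ?_
  · rintro x ⟨hx1, hx2⟩
    have h1 : x ∈ convexHull ℝ ((G' : Set (Pt s)) ∩ (H' : Set (Pt s))) := by
      rw [← K.inter G' hG' H' hH']
      exact ⟨convexHull_mono (Finset.coe_subset.2 hGG) hx1,
        convexHull_mono (Finset.coe_subset.2 hHH) hx2⟩
    have h2 : x ∈ convexHull ℝ ((G : Set (Pt s)) ∩ ((G' ∩ H' : Finset (Pt s)) : Set (Pt s))) := by
      rw [(K.indep G' hG').convexHull_inter hGG Finset.inter_subset_left]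
      refine ⟨hx1, ?_⟩
      rw [Finset.coe_inter]
      exact h1
    have h3 : x ∈ convexHull ℝ (((G ∩ H' : Finset (Pt s)) : Set (Pt s)) ∩ (H : Set (Pt s))) := by
      rw [(K.indep H' hH').convexHull_inter Finset.inter_subset_right hHH]
      refine ⟨convexHull_mono ?_ h2, hx2⟩
      intro y hy
      simp only [Finset.coe_inter, Set.mem_inter_iff, Finset.mem_coe] at hy ⊢
      exact ⟨hy.1, hy.2.2⟩
    refine convexHull_mono ?_ h3
    intro y hy
    simp only [Finset.coe_inter, Set.mem_inter_iff, Finset.mem_coe] at hy ⊢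
    exact ⟨hy.1.1, hy.2⟩
  · exact Set.subset_inter (convexHull_mono Set.inter_subset_left)
      (convexHull_mono Set.inter_subset_right)

theorem GC.fc_mono {K K' : GC s} (h : K.faces ⊆ K'.faces) {G : Finset (Pt s)}
    (hG : K.Fc G) : K'.Fc G := by
  obtain ⟨H, hH, hGH⟩ := hG
  exact ⟨H, h hH, hGH⟩

/-- solving an affine relation for `z` -/
theorem mem_of_comb {Q : AffineSubspace ℝ (Pt s)} {p q z : Pt s} (hp : p ∈ Q) (hq : q ∈ Q)
    {a b c : ℝ} (hc : c ≠ 0) (hab : a - b = c) (h : c • z = a • p - b • q) : z ∈ Q := by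
  have hz : z = AffineMap.lineMap q p (a / c) := by
    rw [AffineMap.lineMap_apply_module']
    have : z = c⁻¹ • (c • z) := by rw [smul_smul, inv_mul_cancel₀ hc, one_smul]
    rw [this, h, smul_sub, smul_sub, smul_smul, smul_smul]
    have hb : c⁻¹ * b = a / c - 1 := by
      field_simp
      linarith
    have ha : c⁻¹ * a = a / c := by ring
    rw [hb, ha, sub_smul, one_smul]
    abel
  rw [hz]
  exact AffineMap.lineMap_mem _ hq hp

theorem indep_insert {S : Finset (Pt s)} {z : Pt s}
    (hS : AffineIndependent ℝ (fun v : S => (v : Pt s)))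
    (hz : z ∉ affineSpan ℝ (S : Set (Pt s))) :
    AffineIndependent ℝ (fun v : (insert z S : Finset (Pt s)) => (v : Pt s)) := by
  classical
  have hzS : z ∉ S := fun h => hz (subset_affineSpan ℝ _ h)
  refine AffineIndependent.affineIndependent_of_notMem_span
    (i := ⟨z, Finset.mem_insert_self z S⟩) ?_ ?_
  · let e : {y : (insert z S : Finset (Pt s)) // y ≠ ⟨z, Finset.mem_insert_self z S⟩} ↪ S :=
      { toFun := fun y => ⟨y.1.1, by
          have h1 := Finset.mem_insert.1 y.1.2
          rcases h1 with h1 | h1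
          · exact absurd (Subtype.ext h1) y.2
          · exact h1⟩
        inj' := fun y y' h => by
          apply Subtype.ext
          apply Subtype.ext
          exact congrArg (fun v : S => (v : Pt s)) h }
    exact hS.comp_embedding e
  · intro h
    apply hz
    refine affineSpan_mono ℝ ?_ h
    rintro _ ⟨y, hy, rfl⟩
    have h1 := Finset.mem_insert.1 y.2
    rcases h1 with h1 | h1
    · exact absurd (Subtype.ext h1) hy
    · exact h1

theorem mem_conv_insert {S : Set (Pt s)} (hS : S.Nonempty) {z x : Pt s}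
    (hx : x ∈ convexHull ℝ (insert z S)) :
    ∃ a b : ℝ, 0 ≤ a ∧ 0 ≤ b ∧ a + b = 1 ∧ ∃ y ∈ convexHull ℝ S, x = a • z + b • y := by
  rw [convexHull_insert hS, mem_convexJoin] at hx
  obtain ⟨z', hz', y, hy, a, b, ha, hb, hab, h⟩ := hx
  rw [Set.mem_singleton_iff] at hz'
  subst hz'
  exact ⟨a, b, ha, hb, hab, y, hy, h.symm⟩

theorem ext_core (K : GC s) (F X : Finset (Pt s)) (z : Pt s)
    (hX : ∀ w ∈ X, K.Fc (insert w F))
    (h1 : ∀ w ∈ X, ∀ w' ∈ X,
      z ∉ affineSpan ℝ ((insert w (insert w' F) : Finset (Pt s)) : Set (Pt s)))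
    (h2 : ∀ w ∈ X, ∀ G ∈ K.faces,
      convexHull ℝ (insert z ((insert w F : Finset (Pt s)) : Set (Pt s))) ∩
        convexHull ℝ (G : Set (Pt s)) ⊆
        convexHull ℝ (((insert w F : Finset (Pt s)) : Set (Pt s)) ∩ (G : Set (Pt s)))) :
    ∃ K' : GC s, K'.faces = K.faces ∪ X.image (fun w => insert z (insert w F)) := by
  classical
  -- old against new
  have hon : ∀ w ∈ X, ∀ G ∈ K.faces,
      convexHull ℝ ((insert z (insert w F) : Finset (Pt s)) : Set (Pt s)) ∩
        convexHull ℝ (G : Set (Pt s)) =
        convexHull ℝ (((insert z (insert w F) : Finset (Pt s)) : Set (Pt s)) ∩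
          (G : Set (Pt s))) := by
    intro w hw G hG
    refine subset_antisymm ?_ ?_
    · intro x hx
      rw [Finset.coe_insert] at hx
      refine convexHull_mono ?_ (h2 w hw G hG hx)
      refine Set.inter_subset_inter_left _ ?_
      rw [Finset.coe_insert z]
      exact Set.subset_insert _ _
    · exact Set.subset_inter (convexHull_mono Set.inter_subset_left)
        (convexHull_mono Set.inter_subset_right)
  -- new against new
  have hnn : ∀ w ∈ X, ∀ w' ∈ X,
      convexHull ℝ ((insert z (insert w F) : Finset (Pt s)) : Set (Pt s)) ∩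
        convexHull ℝ ((insert z (insert w' F) : Finset (Pt s)) : Set (Pt s)) =
        convexHull ℝ (((insert z (insert w F) : Finset (Pt s)) : Set (Pt s)) ∩
          ((insert z (insert w' F) : Finset (Pt s)) : Set (Pt s))) := by
    intro w hw w' hw'
    refine subset_antisymm ?_ ?_
    · rintro x ⟨hx1, hx2⟩
      rw [Finset.coe_insert z] at hx1 hx2
      obtain ⟨a, b, ha, hb, hab, y, hy, rfl⟩ := mem_conv_insert ⟨w, by simp⟩ hx1
      obtain ⟨a', b', ha', hb', hab', y', hy', h⟩ := mem_conv_insert ⟨w', by simp⟩ hx2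
      by_cases haa : a = a'
      · subst haa
        have hbb : b = b' := by linarith
        subst hbb
        by_cases hb0 : b = 0
        · subst hb0
          have ha1 : a = 1 := by linarith
          subst ha1
          rw [zero_smul, add_zero, one_smul]
          apply subset_convexHull
          simp
        · have hyy : y = y' := by
            have h' : b • y = b • y' := add_left_cancel h
            exact smul_right_injective _ hb0 h'
          subst hyy
          have hyi : y ∈ convexHull ℝ (((insert w F : Finset (Pt s)) : Set (Pt s)) ∩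
              ((insert w' F : Finset (Pt s)) : Set (Pt s))) := by
            rw [← K.fc_inter (hX w hw) (hX w' hw')]
            exact ⟨hy, hy'⟩
          have hconv := convex_convexHull ℝ
            (((insert z (insert w F) : Finset (Pt s)) : Set (Pt s)) ∩
              ((insert z (insert w' F) : Finset (Pt s)) : Set (Pt s)))
          refine hconv (subset_convexHull ℝ _ ?_) (convexHull_mono ?_ hyi) ha hb hab
          · simp
          · intro u hu
            simp only [Set.mem_inter_iff, Finset.mem_coe, Finset.mem_insert] at hu ⊢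
            exact ⟨Or.inr hu.1, Or.inr hu.2⟩
      · exfalso
        apply h1 w hw w' hw'
        have hyQ : y ∈ affineSpan ℝ ((insert w (insert w' F) : Finset (Pt s)) : Set (Pt s)) := by
          refine affineSpan_mono ℝ ?_ (convexHull_subset_affineSpan _ hy)
          intro u hu
          simp only [Finset.mem_coe, Finset.mem_insert] at hu ⊢
          tauto
        have hyQ' : y' ∈ affineSpan ℝ
            ((insert w (insert w' F) : Finset (Pt s)) : Set (Pt s)) := by
          refine affineSpan_mono ℝ ?_ (convexHull_subset_affineSpan _ hy')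
          intro u hu
          simp only [Finset.mem_coe, Finset.mem_insert] at hu ⊢
          tauto
        have hc : a - a' ≠ 0 := sub_ne_zero.2 haa
        refine mem_of_comb hyQ' hyQ hc (a := b') (b := b) (by linarith) ?_
        rw [sub_smul]
        rw [sub_eq_sub_iff_add_eq_add, h]
        abel
    · exact Set.subset_inter (convexHull_mono Set.inter_subset_left)
        (convexHull_mono Set.inter_subset_right)
  refine ⟨⟨K.faces ∪ X.image (fun w => insert z (insert w F)), ?_, ?_⟩, rfl⟩
  · intro G hG
    rcases Finset.mem_union.1 hG with hG | hG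
    · exact K.indep G hG
    · obtain ⟨w, hw, rfl⟩ := Finset.mem_image.1 hG
      refine indep_insert (K.fc_indep (hX w hw)) ?_
      have := h1 w hw w hw
      rwa [Finset.insert_idem] at this
  · intro G hG H hH
    rcases Finset.mem_union.1 hG with hG | hG
    · rcases Finset.mem_union.1 hH with hH | hH
      · exact K.inter G hG H hH
      · obtain ⟨w, hw, rfl⟩ := Finset.mem_image.1 hH
        rw [Set.inter_comm, Set.inter_comm (G : Set (Pt s))]
        exact hon w hw G hG
    · obtain ⟨w, hw, rfl⟩ := Finset.mem_image.1 hG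
      rcases Finset.mem_union.1 hH with hH | hH
      · exact hon w hw H hH
      · obtain ⟨w', hw', rfl⟩ := Finset.mem_image.1 hH
        exact hnn w hw w' hw'

/-- a point off the affine span of `S ∪ G` -/
theorem conv_insert_inter_of_notMem {S G : Set (Pt s)} {z : Pt s}
    (h : convexHull ℝ S ∩ convexHull ℝ G = convexHull ℝ (S ∩ G))
    (hz : z ∉ affineSpan ℝ (S ∪ G)) :
    convexHull ℝ (insert z S) ∩ convexHull ℝ G ⊆ convexHull ℝ (S ∩ G) := by
  rintro x ⟨hx1, hx2⟩
  have hxQ : x ∈ affineSpan ℝ (S ∪ G) :=
    affineSpan_mono ℝ Set.subset_union_right (convexHull_subset_affineSpan _ hx2)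
  rcases S.eq_empty_or_nonempty with rfl | hS
  · exfalso
    simp only [insert_empty_eq, convexHull_singleton, Set.mem_singleton_iff] at hx1
    subst hx1
    exact hz hxQ
  obtain ⟨a, b, ha, hb, hab, y, hy, rfl⟩ := mem_conv_insert hS hx1
  have hyQ : y ∈ affineSpan ℝ (S ∪ G) :=
    affineSpan_mono ℝ Set.subset_union_left (convexHull_subset_affineSpan _ hy)
  by_cases ha0 : a = 0
  · subst ha0
    have hb1 : b = 1 := by linarith
    subst hb1
    rw [zero_smul, zero_add, one_smul] at hx2 ⊢
    rw [← h]
    exact ⟨hy, hx2⟩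
  · exfalso
    apply hz
    refine mem_of_comb hxQ hyQ ha0 (a := 1) (b := b) (by linarith) ?_
    rw [one_smul]
    abel

end Pool.Agent.H84Exp
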