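import Pool.Agent.H84Exp.Def

/-! # The polarisation operators `BB`, `Bc` -/

namespace Pool.Agent.H84Exp

open MvPolynomial Pool.Agent.H84Spl

variable {s : ℕ}

theorem pd_comm (i j : Fin s) (P : MvPolynomial (Fin s) ℝ) :
    pderiv i (pderiv j P) = pderiv j (pderiv i P) := by
  have h : ⁅(pderiv i : Derivation ℝ (MvPolynomial (Fin s) ℝ) (MvPolynomial (Fin s) ℝ)),
      (pderiv j : Derivation ℝ (MvPolynomial (Fin s) ℝ) (MvPolynomial (Fin s) ℝ))⁆ = 0 := by
    apply MvPolynomial.derivation_ext
    intro k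
    rw [Derivation.commutator_apply]
    simp only [pderiv_X, Pi.single_apply]
    split_ifs <;> simp
  have := congrArg (fun D => D P) h
  simp only [Derivation.commutator_apply, Derivation.coe_zero, Pi.zero_apply] at this
  exact sub_eq_zero.1 this

theorem EE_add (u : Pt s) (P Q : MvPolynomial (Fin s) ℝ) : EE u (P + Q) = EE u P + EE u Q := by
  simp [EE, mul_add, Finset.sum_add_distrib]

theorem EE_sub (u : Pt s) (P Q : MvPolynomial (Fin s) ℝ) : EE u (P - Q) = EE u P - EE u Q := by
  simp [EE, mul_sub, Finset.sum_sub_distrib]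

theorem EE_zero (u : Pt s) : EE u (0 : MvPolynomial (Fin s) ℝ) = 0 := by
  simp [EE]

theorem EE_C_mul (u : Pt s) (c : ℝ) (P : MvPolynomial (Fin s) ℝ) :
    EE u (C c * P) = C c * EE u P := by
  unfold EE
  rw [Finset.mul_sum]
  refine Finset.sum_congr rfl fun i _ => ?_
  rw [pderiv_C_mul]
  ring

theorem BB_add (k : ℕ) (u : Pt s) (P Q : MvPolynomial (Fin s) ℝ) :
    BB k u (P + Q) = BB k u P + BB k u Q := by
  simp only [BB, EE_add]; ring

theorem BB_sub (k : ℕ) (u : Pt s) (P Q : MvPolynomial (Fin s) ℝ) :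
    BB k u (P - Q) = BB k u P - BB k u Q := by
  simp only [BB, EE_sub]; ring

theorem BB_zero (k : ℕ) (u : Pt s) : BB k u (0 : MvPolynomial (Fin s) ℝ) = 0 := by
  simp [BB, EE_zero]

theorem BB_sum (k : ℕ) (u : Pt s) {ι : Type*} (J : Finset ι) (P : ι → MvPolynomial (Fin s) ℝ) :
    BB k u (∑ j ∈ J, P j) = ∑ j ∈ J, BB k u (P j) := by
  classical
  induction J using Finset.induction_on with
  | empty => simp [BB_zero]
  | insert a J ha ih => rw [Finset.sum_insert ha, Finset.sum_insert ha, BB_add, ih]

theorem totalDegree_BB_hom {k d : ℕ} (hd : d ≤ k) (u : Pt s) {Q : MvPolynomial (Fin s) ℝ}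
    (hQ : Q.IsHomogeneous d) : (BB k u Q).totalDegree ≤ k - 1 := by
  rcases Nat.eq_zero_or_pos k with rfl | hk
  · have : d = 0 := by omega
    subst this
    have h0 := (totalDegree_eq_zero_iff_eq_C).1 (Nat.le_zero.1 hQ.totalDegree_le)
    rw [h0]
    simp [BB, EE]
  have e : BB k u Q = C (1 - (d : ℝ) / k) * Q + C (1 / (k : ℝ)) * ∑ i, C (u i) * pderiv i Q := by
    unfold BB EE
    have h := hQ.sum_X_mul_pderiv
    have h1 : ∑ i, (C (u i) - X i) * pderiv i Q = ∑ i, C (u i) * pderiv i Q - d • Q := by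
      rw [← h, ← Finset.sum_sub_distrib]
      exact Finset.sum_congr rfl fun i _ => by ring
    rw [h1]
    have h2 : (d • Q : MvPolynomial (Fin s) ℝ) = C (d : ℝ) * Q := by
      rw [nsmul_eq_mul]; simp
    have h3 : (C (1 - (d : ℝ) / k) : MvPolynomial (Fin s) ℝ) = 1 - C (1 / (k : ℝ)) * C (d : ℝ) := by
      rw [← C_mul, ← C_1, ← C_sub]; congr 1; ring
    rw [h2, h3]; ring
  rw [e]
  refine (totalDegree_add _ _).trans (max_le ?_ ?_)
  · by_cases hdk : d = k
    · subst hdk
      have : (d : ℝ) / d = 1 := div_self (by positivity)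
      rw [this]; simp
    · refine (totalDegree_mul _ _).trans ?_
      have := hQ.totalDegree_le
      simp only [totalDegree_C]; omega
  · refine (totalDegree_mul _ _).trans ?_
    simp only [totalDegree_C, zero_add]
    refine totalDegree_finsetSum_le fun i _ => ?_
    refine (totalDegree_mul _ _).trans ?_
    have := (hQ.pderiv (i := i)).totalDegree_le
    simp only [totalDegree_C]; omega

theorem totalDegree_BB_le {k : ℕ} (u : Pt s) {P : MvPolynomial (Fin s) ℝ}
    (hP : P.totalDegree ≤ k) : (BB k u P).totalDegree ≤ k - 1 := by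
  rw [← sum_homogeneousComponent P, BB_sum]
  refine totalDegree_finsetSum_le fun d hd => ?_
  have hd' : d ≤ k := by
    have := Finset.mem_range.1 hd
    omega
  exact totalDegree_BB_hom hd' u (homogeneousComponent_isHomogeneous d P)

theorem EE_EE (u v : Pt s) (P : MvPolynomial (Fin s) ℝ) :
    EE v (EE u P) = ∑ j, ∑ i, (C (v j) - X j) * (C (u i) - X i) * pderiv j (pderiv i P)
      - EE v P := by
  have h : ∀ j : Fin s, pderiv j (EE u P) =
      ∑ i, (C (u i) - X i) * pderiv j (pderiv i P) - pderiv j P := by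
    intro j
    unfold EE
    rw [map_sum]
    have h1 : ∀ i : Fin s, pderiv j ((C (u i) - X i) * pderiv i P) =
        (C (u i) - X i) * pderiv j (pderiv i P) - (if i = j then pderiv i P else 0) := by
      intro i
      rw [pderiv_mul, map_sub, pderiv_C, pderiv_X, zero_sub, Pi.single_apply]
      by_cases hij : i = j
      · rw [if_pos hij, if_pos hij]
        ring
      · rw [if_neg hij, if_neg hij]
        ring
    rw [Finset.sum_congr rfl fun i _ => h1 i, Finset.sum_sub_distrib, Finset.sum_ite_eq' ]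
    rw [if_pos (Finset.mem_univ _)]
  have e1 : EE v (EE u P) = ∑ j, (C (v j) - X j) * pderiv j (EE u P) := rfl
  have e2 : EE v P = ∑ j, (C (v j) - X j) * pderiv j P := rfl
  rw [e1, e2, ← Finset.sum_sub_distrib]
  refine Finset.sum_congr rfl fun j _ => ?_
  rw [h j, mul_sub, Finset.mul_sum]
  rw [Finset.sum_congr rfl fun i _ => (mul_assoc (C (v j) - X j : MvPolynomial (Fin s) ℝ) (C (u i) - X i)
    (pderiv j (pderiv i P))).symm]

theorem BB_comm {k : ℕ} (hk : 2 ≤ k) (u v : Pt s) (P : MvPolynomial (Fin s) ℝ) :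
    BB (k - 1) v (BB k u P) = BB (k - 1) u (BB k v P) := by
  have hk1 : ((k - 1 : ℕ) : ℝ) = (k : ℝ) - 1 := by
    rw [Nat.cast_sub (by omega)]; simp
  have hk2 : (2 : ℝ) ≤ k := by exact_mod_cast hk
  have hsym : ∑ j, ∑ i, (C (v j) - X j) * (C (u i) - X i) * pderiv j (pderiv i P) =
      ∑ j, ∑ i, (C (u j) - X j) * (C (v i) - X i) * pderiv j (pderiv i P) := by
    rw [Finset.sum_comm]
    refine Finset.sum_congr rfl fun j _ => Finset.sum_congr rfl fun i _ => ?_
    rw [pd_comm i j]; ring
  have key : ∀ a b : Pt s, BB (k - 1) b (BB k a P) = P + C (1 / (k : ℝ)) * EE a P +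
      C (1 / (k : ℝ)) * EE b P + C (1 / (((k : ℝ) - 1) * k)) *
        ∑ j, ∑ i, (C (b j) - X j) * (C (a i) - X i) * pderiv j (pderiv i P) := by
    intro a b
    unfold BB
    rw [hk1, EE_add, EE_C_mul, EE_EE]
    generalize (∑ j, ∑ i, (C (b j) - X j) * (C (a i) - X i) * pderiv j (pderiv i P)) = S
    have e1 : (C (1 / ((k : ℝ) - 1)) : MvPolynomial (Fin s) ℝ) * C (1 / (k : ℝ)) =
        C (1 / (((k : ℝ) - 1) * k)) := by
      rw [← C_mul]; congr 1
      have : (k : ℝ) - 1 ≠ 0 := by linarith
      have : (k : ℝ) ≠ 0 := by linarith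
      field_simp
    have e2 : (C (1 / ((k : ℝ) - 1)) : MvPolynomial (Fin s) ℝ) - C (1 / (((k : ℝ) - 1) * k)) =
        C (1 / (k : ℝ)) := by
      rw [← C_sub]; congr 1
      have : (k : ℝ) - 1 ≠ 0 := by linarith
      have : (k : ℝ) ≠ 0 := by linarith
      field_simp
    rw [← e1] at e2 ⊢
    generalize (C (1 / ((k : ℝ) - 1)) : MvPolynomial (Fin s) ℝ) = c1 at *
    generalize (C (1 / (k : ℝ)) : MvPolynomial (Fin s) ℝ) = c2 at *
    generalize EE a P = Ea
    generalize EE b P = Eb
    linear_combination Eb * e2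
  rw [key u v, key v u, hsym]
  ring

theorem eval_BB_self (k : ℕ) (u : Pt s) (P : MvPolynomial (Fin s) ℝ) :
    eval u (BB k u P) = eval u P := by
  simp [BB, EE]

theorem Bc_sub (k : ℕ) (L : List (Pt s)) (P Q : MvPolynomial (Fin s) ℝ) :
    Bc k L (P - Q) = Bc k L P - Bc k L Q := by
  induction L generalizing k P Q with
  | nil => rfl
  | cons u L ih => simp only [Bc]; rw [BB_sub, ih]

theorem Bc_zero (k : ℕ) (L : List (Pt s)) : Bc k L (0 : MvPolynomial (Fin s) ℝ) = 0 := by
  induction L generalizing k with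
  | nil => rfl
  | cons u L ih => simp only [Bc]; rw [BB_zero, ih]

theorem Bc_append (k : ℕ) (L L' : List (Pt s)) (P : MvPolynomial (Fin s) ℝ) :
    Bc k (L ++ L') P = Bc (k - L.length) L' (Bc k L P) := by
  induction L generalizing k P with
  | nil => simp [Bc]
  | cons u L ih =>
    simp only [List.cons_append, Bc, List.length_cons]
    rw [ih]
    congr 1
    omega

theorem totalDegree_Bc_le {k : ℕ} (L : List (Pt s)) {P : MvPolynomial (Fin s) ℝ}
    (hP : P.totalDegree ≤ k) : (Bc k L P).totalDegree ≤ k - L.length := by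
  induction L generalizing k P with
  | nil => simpa [Bc] using hP
  | cons u L ih =>
    simp only [Bc, List.length_cons]
    have := ih (totalDegree_BB_le u hP)
    omega

theorem Bc_perm {k : ℕ} {L L' : List (Pt s)} (h : L.Perm L') (hl : L.length ≤ k)
    (P : MvPolynomial (Fin s) ℝ) : Bc k L P = Bc k L' P := by
  induction h generalizing k P with
  | nil => rfl
  | cons u h ih =>
    simp only [Bc]
    exact ih (by simp at hl; omega) _
  | swap u v L =>
    simp only [Bc]
    rw [BB_comm (by simp at hl; omega)]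
  | trans h1 h2 ih1 ih2 =>
    rw [ih1 hl, ih2 (by rw [← h1.length_eq]; exact hl)]

theorem eval_Bc_replicate (k j : ℕ) (w : Pt s) (P : MvPolynomial (Fin s) ℝ) :
    eval w (Bc k (List.replicate j w) P) = eval w P := by
  induction j generalizing k P with
  | zero => rfl
  | succ j ih =>
    simp only [List.replicate_succ, Bc]
    rw [ih, eval_BB_self]

/-- symmetry of the polar form -/
theorem Bc_symm {k a b : ℕ} {L : List (Pt s)} (h : L.length + a + b = k) (v w : Pt s)
    {P : MvPolynomial (Fin s) ℝ} (hP : P.totalDegree ≤ k) :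
    eval v (Bc k (L ++ List.replicate a w) P) = eval w (Bc k (L ++ List.replicate b v) P) := by
  have h1 : eval v (Bc k (L ++ List.replicate a w) P) =
      eval v (Bc k ((L ++ List.replicate a w) ++ List.replicate b v) P) := by
    rw [Bc_append k (L ++ List.replicate a w), eval_Bc_replicate]
  have h2 : eval w (Bc k (L ++ List.replicate b v) P) =
      eval w (Bc k ((L ++ List.replicate b v) ++ List.replicate a w) P) := by
    rw [Bc_append k (L ++ List.replicate b v), eval_Bc_replicate]
  have hperm : ((L ++ List.replicate a w) ++ List.replicate b v).Perm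
      ((L ++ List.replicate b v) ++ List.replicate a w) := by
    rw [List.append_assoc, List.append_assoc]
    exact List.Perm.append_left _ List.perm_append_comm
  have h3 := Bc_perm (k := k) hperm (by simp; omega) P
  have hdeg : (Bc k ((L ++ List.replicate b v) ++ List.replicate a w) P).totalDegree = 0 := by
    have := totalDegree_Bc_le ((L ++ List.replicate b v) ++ List.replicate a w) hP
    simp only [List.length_append, List.length_replicate] at this
    omega
  rw [h1, h2, h3]
  rw [totalDegree_eq_zero_iff_eq_C.1 hdeg]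
  simp

end Pool.Agent.H84Exp
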