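import Pool.Agent.H84Exp.Rigid
import Pool.Agent.H84Exp.Smooth

/-! # Long chains destroy local bases -/

namespace Pool.Agent.H84Exp

open MvPolynomial Pool.Agent.H84Spl

variable {s : ℕ}

theorem face_of_CC {𝓕 : Finset (Pt s) → Prop} {r : ℕ} {Y : Set (Pt s)} {t : ℕ}
    {F X : Finset (Pt s)} (h : CC 𝓕 r Y t F X) {w : Pt s} (hw : w ∈ X) : 𝓕 (insert w F) := by
  classical
  induction t generalizing F X with
  | zero => 
    have := h w hw
    convert this
  | succ t ih =>
    obtain ⟨Z, hZY, hdet, hface, hX, hZ⟩ := h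
    have h1 := ih (hX w hw) (Finset.mem_insert_self _ _)
    have e : (insert w (insert w F) : Finset (Pt s)) = insert w F := by
      ext x; simp
    convert h1 using 1
    ext x; simp

/-- a polynomial of degree at most `ρ` vanishing on a determining set vanishes on `Y` -/
theorem det_vanish {ρ : ℕ} {Z : Finset (Pt s)} {Y : Set (Pt s)} (hd : Det ρ Z Y)
    {G : MvPolynomial (Fin s) ℝ} (hG : G.totalDegree ≤ ρ) (h0 : ∀ z ∈ Z, eval z G = 0)
    {y : Pt s} (hy : y ∈ Y) : eval y G = 0 := by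
  obtain ⟨ℓ, _, hl⟩ := hd
  rw [hl G hG y hy]
  refine Finset.sum_eq_zero fun z hz => ?_
  rw [h0 z hz, mul_zero]

/-- locally supported splines vanish at all block vertices -/
theorem vanish_of_local {T : Triang s} {r t M n : ℕ} {Y : Set (Pt s)} {B : ℕ → Finset (Pt s)}
    (hr : 1 ≤ r) (h : LongChain T r t M n Y B) {f : Pt s → ℝ}
    (hf : f ∈ T.splineSpace r (2 ^ (t + 1) * r)) (hloc : T.LocallySupported M f)
    {i : ℕ} (h1 : 1 ≤ i) (hi : i ≤ n) {v : Pt s} (hv : v ∈ B i) : f v = 0 := by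
  classical
  obtain ⟨P, hP⟩ := exists_fam T hf
  have hk : 2 ^ (t + 1) * r = 2 ^ t * r + 2 ^ t * r := by ring
  have hρ : 1 ≤ 2 ^ t * r := Nat.mul_pos (pow_pos (by norm_num) t) hr
  set ρ : ℕ := 2 ^ t * r with hρdef
  set k : ℕ := 2 ^ (t + 1) * r with hkdef
  -- the polynomials `q`
  have hex : ∀ (i : ℕ) (v : Pt s), ∃ G : MvPolynomial (Fin s) ℝ, 1 ≤ i → i ≤ n → v ∈ B i →
      (G.totalDegree ≤ ρ ∧ ∀ w, (w = v ∨ w ∈ B (i - 1) ∨ w ∈ B (i + 1)) → ∀ σ ∈ T.cells, v ∈ σ →
        w ∈ σ → eval w (Bc k (List.replicate ρ v) (P σ)) = eval w G) := by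
    intro i v
    by_cases hc : 1 ≤ i ∧ i ≤ n ∧ v ∈ B i
    · obtain ⟨a1, a2, a3⟩ := hc
      have hcc := h.cc i a1 a2 v a3
      have hXY : ((insert v (B (i - 1) ∪ B (i + 1)) : Finset (Pt s)) : Set (Pt s)) ⊆ Y := by
        intro x hx
        simp only [Finset.coe_insert, Finset.coe_union, Set.mem_insert_iff, Set.mem_union,
          Finset.mem_coe] at hx
        rcases hx with rfl | hx | hx
        · exact h.sub i a3
        · exact h.sub _ hx
        · exact h.sub _ hx
      obtain ⟨G, hG, hG'⟩ := rigid_of_CC hP t {v} _ hcc hXY (List.replicate ρ v)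
        (by
          intro h0
          have := congrArg List.length h0
          simp at this
          omega)
        (by intro u hu; rw [List.eq_of_mem_replicate hu]; simp)
        (by rw [List.length_replicate]; omega)
      refine ⟨G, fun _ _ _ => ⟨hG, fun w hw σ hσ hvσ hwσ => ?_⟩⟩
      refine hG' w ?_ σ hσ (fun u hu => by rw [List.eq_of_mem_replicate hu]; exact hvσ) hwσ
      simp only [Finset.mem_insert, Finset.mem_union]
      exact hw
    · refine ⟨0, fun a1 a2 a3 => absurd ⟨a1, a2, a3⟩ hc⟩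
  choose q hq using hex
  -- a common cell
  have hcell : ∀ i, 1 ≤ i → i ≤ n → ∀ v ∈ B i, ∀ w, (w = v ∨ w ∈ B (i - 1) ∨ w ∈ B (i + 1)) →
      ∃ σ ∈ T.cells, v ∈ σ ∧ w ∈ σ := by
    intro i a1 a2 v a3 w hw
    have hcc := h.cc i a1 a2 v a3
    obtain ⟨σ, hσ, hsub⟩ := face_of_CC hcc (w := w) (by
      simp only [Finset.mem_insert, Finset.mem_union]
      exact hw)
    exact ⟨σ, hσ, hsub (by simp), hsub (by simp)⟩
  -- values
  have hval : ∀ i, 1 ≤ i → i ≤ n → ∀ v ∈ B i, eval v (q i v) = f v := by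
    intro i a1 a2 v a3
    obtain ⟨σ, hσ, hvσ, _⟩ := hcell i a1 a2 v a3 v (Or.inl rfl)
    rw [← (hq i v a1 a2 a3).2 v (Or.inl rfl) σ hσ hvσ hvσ, eval_Bc_replicate]
    exact ((hP.1 σ hσ).2 v (subset_convexHull ℝ _ (by exact_mod_cast hvσ))).symm
  -- symmetry
  have hsym : ∀ i, 1 ≤ i → i + 1 ≤ n → ∀ v ∈ B i, ∀ w ∈ B (i + 1),
      eval w (q i v) = eval v (q (i + 1) w) := by
    intro i a1 a2 v hv w hw
    obtain ⟨σ, hσ, hvσ, hwσ⟩ := hcell i a1 (by omega) v hv w (Or.inr (Or.inr hw))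
    rw [← (hq i v a1 (by omega) hv).2 w (Or.inr (Or.inr hw)) σ hσ hvσ hwσ,
      ← (hq (i + 1) w (by omega) a2 hw).2 v (Or.inr (Or.inl (by simpa using hv))) σ hσ hwσ hvσ]
    have := Bc_symm (k := k) (a := ρ) (b := ρ) (L := []) (by simp; omega) w v (hP.1 σ hσ).1
    simpa using this
  obtain ⟨v0, hv0, hsupp⟩ := hloc
  obtain ⟨i0, b1, b2, hb⟩ := h.loc v0 hv0
  -- polynomials vanish near block i0
  have hP0 : ∀ v ∈ B i0, ∀ σ ∈ T.cells, v ∈ σ → P σ = 0 := by
    intro v hv σ hσ hvσ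
    refine eq_zero_of_vanish_cell T hσ fun x hx => ?_
    rw [← (hP.1 σ hσ).2 x hx]
    by_contra hne
    exact Set.disjoint_left.1 (hb v hv σ hσ hvσ) hx (hsupp hne)
  let V : ℕ → Prop := fun j => ∀ u ∈ B j, f u = 0 ∧
    ∀ w, (w ∈ B (j - 1) ∨ w ∈ B (j + 1)) → eval w (q j u) = 0
  have hV0 : V i0 := by
    intro u hu
    constructor
    · obtain ⟨σ, hσ, huσ, _⟩ := hcell i0 b1 b2 u hu u (Or.inl rfl)
      rw [(hP.1 σ hσ).2 u (subset_convexHull ℝ _ (by exact_mod_cast huσ)), hP0 u hu σ hσ huσ]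
      simp
    · intro w hw
      obtain ⟨σ, hσ, huσ, hwσ⟩ := hcell i0 b1 b2 u hu w (Or.inr hw)
      rw [← (hq i0 u b1 b2 hu).2 w (Or.inr hw) σ hσ huσ hwσ, hP0 u hu σ hσ huσ, Bc_zero]
      simp
  have hup : ∀ j, 1 ≤ j → j + 1 ≤ n → V j → V (j + 1) := by
    intro j c1 c2 hVj w hw
    have hall : ∀ y ∈ Y, eval y (q (j + 1) w) = 0 := by
      intro y hy
      refine det_vanish (h.det j c1 (by omega)) (hq (j + 1) w (by omega) c2 hw).1 ?_ hy
      intro u hu
      rw [← hsym j c1 c2 u hu w hw]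
      exact (hVj u hu).2 w (Or.inr hw)
    refine ⟨?_, fun x hx => ?_⟩
    · rw [← hval (j + 1) (by omega) c2 w hw]
      exact hall w (h.sub _ hw)
    · rcases hx with hx | hx
      · exact hall x (h.sub _ hx)
      · exact hall x (h.sub _ hx)
  have hdown : ∀ j, 1 ≤ j → j + 1 ≤ n → V (j + 1) → V j := by
    intro j c1 c2 hVj w hw
    have hall : ∀ y ∈ Y, eval y (q j w) = 0 := by
      intro y hy
      refine det_vanish (h.det (j + 1) (by omega) c2) (hq j w c1 (by omega) hw).1 ?_ hy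
      intro u hu
      rw [hsym j c1 c2 w hw u hu]
      exact (hVj u hu).2 w (Or.inl (by simpa using hw))
    refine ⟨?_, fun x hx => ?_⟩
    · rw [← hval j c1 (by omega) w hw]
      exact hall w (h.sub _ hw)
    · rcases hx with hx | hx
      · exact hall x (h.sub _ hx)
      · exact hall x (h.sub _ hx)
  have hupall : ∀ d, i0 + d ≤ n → V (i0 + d) := by
    intro d
    induction d with
    | zero => intro _; simpa using hV0
    | succ d ih => intro hd; exact hup (i0 + d) (by omega) hd (ih (by omega))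
  have hdownall : ∀ d, 1 ≤ i0 - d → V (i0 - d) := by
    intro d
    induction d with
    | zero => intro _; simpa using hV0
    | succ d ih =>
      intro hd
      refine hdown (i0 - (d + 1)) hd (by omega) ?_
      have e : i0 - (d + 1) + 1 = i0 - d := by omega
      rw [e]
      exact ih (by omega)
  have hVi : V i := by
    rcases le_total i0 i with hle | hle
    · have := hupall (i - i0) (by omega)
      rwa [show i0 + (i - i0) = i by omega] at this
    · have := hdownall (i0 - i) (by omega)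
      rwa [show i0 - (i0 - i) = i by omega] at this
  exact (hVi v hv).1

theorem span_ne_of_longChain {T : Triang s} {r t M n : ℕ} {Y : Set (Pt s)}
    {B : ℕ → Finset (Pt s)} (hr : 1 ≤ r) (hn : 1 ≤ n) (h : LongChain T r t M n Y B) :
    Submodule.span ℝ {f | f ∈ T.splineSpace r (2 ^ (t + 1) * r) ∧ T.LocallySupported M f} ≠
      T.splineSpace r (2 ^ (t + 1) * r) := by
  classical
  intro heq
  obtain ⟨v, hv⟩ := h.ne 1 le_rfl hn
  obtain ⟨σ, hσ, hsub⟩ := face_of_CC (h.cc 1 le_rfl hn v hv) (w := v) (by simp)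
  have hvσ : v ∈ σ := hsub (by simp)
  have hvreg : v ∈ T.region := ⟨σ, hσ, subset_convexHull ℝ _ (by exact_mod_cast hvσ)⟩
  let f : Pt s → ℝ := T.region.indicator fun _ => 1
  have hf : f ∈ T.splineSpace r (2 ^ (t + 1) * r) := by
    refine ⟨?_, ?_, ?_⟩
    · refine (contDiffOn_const (c := (1 : ℝ))).congr fun x hx => ?_
      exact Set.indicator_of_mem hx _
    · intro x hx
      exact Set.indicator_of_notMem hx _
    · intro τ hτ
      refine ⟨1, by simp, fun x hx => ?_⟩
      have hx' : x ∈ T.region := ⟨τ, hτ, hx⟩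
      rw [show f x = 1 from Set.indicator_of_mem hx' _]
      simp
  have hle : Submodule.span ℝ {f | f ∈ T.splineSpace r (2 ^ (t + 1) * r) ∧
      T.LocallySupported M f} ≤ LinearMap.ker (LinearMap.proj (R := ℝ) (φ := fun _ : Pt s => ℝ) v) := by
    refine Submodule.span_le.2 ?_
    rintro g ⟨hg, hgl⟩
    exact vanish_of_local hr h hg hgl le_rfl hn hv
  have hmem : f ∈ Submodule.span ℝ {f | f ∈ T.splineSpace r (2 ^ (t + 1) * r) ∧
      T.LocallySupported M f} := by
    rw [heq]; exact hf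
  have h0 : f v = 0 := hle hmem
  rw [show f v = 1 from Set.indicator_of_mem hvreg _] at h0
  exact one_ne_zero h0

end Pool.Agent.H84Exp
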