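import Pool.Agent.H84Spl.Def

/-!
# Exponential lower bounds for the degree of local spline bases: definitions
-/

namespace Pool.Agent.H84Exp

open MvPolynomial Pool.Agent.H84Spl

/-- points of `R^s` -/
abbrev Pt (s : ℕ) := Fin s → ℝ

/-- `E_u P = Σ (u_i - X_i) ∂_i P`. -/
noncomputable def EE {s : ℕ} (u : Pt s) (P : MvPolynomial (Fin s) ℝ) : MvPolynomial (Fin s) ℝ :=
  ∑ i, (C (u i) - X i) * pderiv i P

/-- One step of polarisation: from formal degree `k` to formal degree `k-1`. -/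
noncomputable def BB {s : ℕ} (k : ℕ) (u : Pt s) (P : MvPolynomial (Fin s) ℝ) :
    MvPolynomial (Fin s) ℝ := P + C (1 / (k : ℝ)) * EE u P

/-- Iterated polarisation: `Bc k [u_1, ..., u_l] P` is the polynomial
`y ↦ P̂(u_1, ..., u_l, y, ..., y)`, where `P̂` is the polar form of `P` of formal degree `k`. -/
noncomputable def Bc {s : ℕ} : ℕ → List (Pt s) → MvPolynomial (Fin s) ℝ → MvPolynomial (Fin s) ℝ
  | _, [], P => P
  | k, u :: L, P => Bc (k - 1) L (BB k u P)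

/-- All derivatives of order at most `r` of the polynomial vanish on `K`. -/
def VO {s : ℕ} : ℕ → Set (Pt s) → MvPolynomial (Fin s) ℝ → Prop
  | 0, K, D => ∀ x ∈ K, eval x D = 0
  | r + 1, K, D => (∀ x ∈ K, eval x D = 0) ∧ ∀ i, VO r K (pderiv i D)

/-- The finite set `Z` determines (by an interpolation formula) the values on `Y` of polynomials
of degree at most `ρ`. -/
def Det {s : ℕ} (ρ : ℕ) (Z : Finset (Pt s)) (Y : Set (Pt s)) : Prop :=
  ∃ ℓ : Pt s → MvPolynomial (Fin s) ℝ, (∀ z, (ℓ z).totalDegree ≤ ρ) ∧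
    ∀ G : MvPolynomial (Fin s) ℝ, G.totalDegree ≤ ρ → ∀ w ∈ Y,
      eval w G = ∑ z ∈ Z, eval w (ℓ z) * eval z G

/-- `F` is (the vertex set of) a face of the triangulation. -/
def Face {s : ℕ} (T : Triang s) (F : Finset (Pt s)) : Prop := ∃ σ ∈ T.cells, F ⊆ σ

open Classical in
/-- Richness of a complex (given by its family `𝓕` of faces) at the face `F` with respect to the
vertices in `X`, with `t` levels. -/
def CC {s : ℕ} (𝓕 : Finset (Pt s) → Prop) (r : ℕ) (Y : Set (Pt s)) :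
    ℕ → Finset (Pt s) → Finset (Pt s) → Prop
  | 0, F, X => ∀ w ∈ X, 𝓕 (insert w F)
  | t + 1, F, X => ∃ Z : Finset (Pt s), (Z : Set (Pt s)) ⊆ Y ∧ Det (2 ^ t * r) Z Y ∧
      (∀ w ∈ X, ∀ z ∈ Z, 𝓕 (insert z (insert w F))) ∧
      (∀ w ∈ X, CC 𝓕 r Y t (insert w F) (insert w Z)) ∧
      (∀ z ∈ Z, CC 𝓕 r Y t (insert z F) X)

/-- `P` is a family of cell polynomials of degree at most `k` of a `C^r` spline. -/
def Fam {s : ℕ} (T : Triang s) (r k : ℕ) (f : Pt s → ℝ)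
    (P : Finset (Pt s) → MvPolynomial (Fin s) ℝ) : Prop :=
  (∀ σ ∈ T.cells, (P σ).totalDegree ≤ k ∧
    ∀ x ∈ convexHull ℝ (σ : Set (Pt s)), f x = eval x (P σ)) ∧
  ∀ σ ∈ T.cells, ∀ τ ∈ T.cells,
    VO r (convexHull ℝ (σ : Set (Pt s)) ∩ convexHull ℝ (τ : Set (Pt s))) (P σ - P τ)

/-- Rigidity: `w ↦ P̂_σ(L, w, ..., w)` is the restriction to `X` of one polynomial of degree at
most `ρ` (`σ` is any cell containing `L` and `w`). -/
def Rg {s : ℕ} (T : Triang s) (k : ℕ) (P : Finset (Pt s) → MvPolynomial (Fin s) ℝ) (ρ : ℕ)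
    (L : List (Pt s)) (X : Finset (Pt s)) : Prop :=
  ∃ G : MvPolynomial (Fin s) ℝ, G.totalDegree ≤ ρ ∧ ∀ w ∈ X, ∀ σ ∈ T.cells,
    (∀ u ∈ L, u ∈ σ) → w ∈ σ → eval w (Bc k L (P σ)) = eval w G

open Classical in
/-- A long chain of blocks `B 1, ..., B n` of vertices (`B 0 = B (n+1) = ∅`). -/
structure LongChain {s : ℕ} (T : Triang s) (r t M n : ℕ) (Y : Set (Pt s))
    (B : ℕ → Finset (Pt s)) : Prop where
  zero : B 0 = ∅
  last : B (n + 1) = ∅
  sub : ∀ i, (B i : Set (Pt s)) ⊆ Y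
  det : ∀ i, 1 ≤ i → i ≤ n → Det (2 ^ t * r) (B i) Y
  ne : ∀ i, 1 ≤ i → i ≤ n → (B i).Nonempty
  cc : ∀ i, 1 ≤ i → i ≤ n → ∀ v ∈ B i,
    CC (Face T) r Y t {v} (insert v (B (i - 1) ∪ B (i + 1)))
  loc : ∀ v0, T.IsVertex v0 → ∃ i, 1 ≤ i ∧ i ≤ n ∧ ∀ v ∈ B i, ∀ σ ∈ T.cells, v ∈ σ →
    Disjoint (convexHull ℝ (σ : Set (Pt s))) (T.star v0 M)

/-- Any two cells are joined by a chain of cells in which consecutive cells share a facet. -/
def FacetConn {s : ℕ} (T : Triang s) : Prop :=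
  ∀ σ ∈ T.cells, ∀ τ ∈ T.cells, Relation.ReflTransGen
    (fun a b : Finset (Pt s) => b ∈ T.cells ∧ ((a : Set (Pt s)) ∩ (b : Set (Pt s))).ncard = s) σ τ

/-- A finite geometric simplicial complex (given by some faces; subsets of faces are implied). -/
structure GC (s : ℕ) where
  faces : Finset (Finset (Pt s))
  indep : ∀ G ∈ faces, AffineIndependent ℝ (fun v : G => (v : Pt s))
  inter : ∀ G ∈ faces, ∀ H ∈ faces,
    convexHull ℝ (G : Set (Pt s)) ∩ convexHull ℝ (H : Set (Pt s)) =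
      convexHull ℝ ((G : Set (Pt s)) ∩ (H : Set (Pt s)))

/-- `G` is a face of the geometric complex. -/
def GC.Fc {s : ℕ} (K : GC s) (G : Finset (Pt s)) : Prop := ∃ H ∈ K.faces, G ⊆ H

end Pool.Agent.H84Exp
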