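import Pool.Agent.H84Exp.Def

/-! # Vanishing of order `r` along a convex set -/

namespace Pool.Agent.H84Exp

open MvPolynomial Pool.Agent.H84Spl

variable {s : ℕ}

theorem VO_eval {r : ℕ} {K : Set (Pt s)} {D : MvPolynomial (Fin s) ℝ} (hD : VO r K D) :
    ∀ x ∈ K, eval x D = 0 := by
  cases r with
  | zero => exact hD
  | succ r => exact hD.1

theorem VO_mono {r r' : ℕ} (h : r' ≤ r) {K K' : Set (Pt s)} (hK : K' ⊆ K)
    {D : MvPolynomial (Fin s) ℝ} (hD : VO r K D) : VO r' K' D := by
  induction r' generalizing r D with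
  | zero => exact fun x hx => VO_eval hD x (hK hx)
  | succ r' ih =>
    obtain ⟨r, rfl⟩ : ∃ m, r = m + 1 := ⟨r - 1, by omega⟩
    exact ⟨fun x hx => VO_eval hD x (hK hx), fun i => ih (by omega) (hD.2 i)⟩

theorem VO_zero (r : ℕ) (K : Set (Pt s)) : VO r K (0 : MvPolynomial (Fin s) ℝ) := by
  induction r with
  | zero => exact fun x _ => map_zero _
  | succ r ih => exact ⟨fun x _ => map_zero _, fun i => by rw [map_zero]; exact ih⟩

theorem VO_add {r : ℕ} {K : Set (Pt s)} {D D' : MvPolynomial (Fin s) ℝ}
    (hD : VO r K D) (hD' : VO r K D') : VO r K (D + D') := by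
  induction r generalizing D D' with
  | zero => exact fun x hx => by rw [map_add, hD x hx, hD' x hx, add_zero]
  | succ r ih =>
    exact ⟨fun x hx => by rw [map_add, hD.1 x hx, hD'.1 x hx, add_zero],
      fun i => by rw [map_add]; exact ih (hD.2 i) (hD'.2 i)⟩

theorem VO_sub {r : ℕ} {K : Set (Pt s)} {D D' : MvPolynomial (Fin s) ℝ}
    (hD : VO r K D) (hD' : VO r K D') : VO r K (D - D') := by
  induction r generalizing D D' with
  | zero => exact fun x hx => by rw [map_sub, hD x hx, hD' x hx, sub_zero]
  | succ r ih =>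
    exact ⟨fun x hx => by rw [map_sub, hD.1 x hx, hD'.1 x hx, sub_zero],
      fun i => by rw [map_sub]; exact ih (hD.2 i) (hD'.2 i)⟩

theorem VO_C_mul {r : ℕ} {K : Set (Pt s)} (c : ℝ) {D : MvPolynomial (Fin s) ℝ}
    (hD : VO r K D) : VO r K (C c * D) := by
  induction r generalizing D with
  | zero => exact fun x hx => by rw [map_mul, hD x hx, mul_zero]
  | succ r ih =>
    exact ⟨fun x hx => by rw [map_mul, hD.1 x hx, mul_zero],
      fun i => by rw [pderiv_C_mul]; exact ih (hD.2 i)⟩

theorem pderiv_comm' (i j : Fin s) (D : MvPolynomial (Fin s) ℝ) :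
    pderiv i (pderiv j D) = pderiv j (pderiv i D) := by
  have h : (⁅(pderiv i : Derivation ℝ (MvPolynomial (Fin s) ℝ) (MvPolynomial (Fin s) ℝ)),
      (pderiv j : Derivation ℝ (MvPolynomial (Fin s) ℝ) (MvPolynomial (Fin s) ℝ))⁆ :
      Derivation ℝ (MvPolynomial (Fin s) ℝ) (MvPolynomial (Fin s) ℝ)) = 0 := by
    refine MvPolynomial.derivation_ext fun k => ?_
    classical
    rw [Derivation.commutator_apply]
    simp only [pderiv_X, Derivation.coe_zero, Pi.zero_apply]
    have e : ∀ a b c : Fin s, pderiv a (Pi.single (M := fun _ => MvPolynomial (Fin s) ℝ) b 1 c) = 0 := by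
      intro a b c
      by_cases hbc : c = b
      · subst hbc; simp
      · simp [Pi.single_eq_of_ne hbc]
    rw [e, e, sub_zero]
  have h2 := congrArg (fun d => d D) h
  simp only [Derivation.commutator_apply, Derivation.coe_zero, Pi.zero_apply] at h2
  exact sub_eq_zero.1 h2

theorem pderiv_EE (j : Fin s) (u : Pt s) (D : MvPolynomial (Fin s) ℝ) :
    pderiv j (EE u D) = EE u (pderiv j D) - pderiv j D := by
  classical
  unfold EE
  rw [map_sum]
  have : ∀ i : Fin s, pderiv j ((C (u i) - X i) * pderiv i D) =
      (C (u i) - X i) * pderiv i (pderiv j D) - (if i = j then pderiv j D else 0) := by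
    intro i
    rw [pderiv_mul, map_sub, pderiv_C, pderiv_comm' j i]
    by_cases hij : i = j
    · subst hij; simp; ring
    · rw [pderiv_X_of_ne hij]; simp [hij]
  rw [Finset.sum_congr rfl fun i _ => this i, Finset.sum_sub_distrib]
  simp

theorem derivative_aeval (g : Fin s → Polynomial ℝ) (D : MvPolynomial (Fin s) ℝ) :
    Polynomial.derivative (aeval g D) = ∑ i, aeval g (pderiv i D) * Polynomial.derivative (g i) := by
  classical
  induction D using MvPolynomial.induction_on with
  | C a => simp
  | add p q hp hq =>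
    simp only [map_add, hp, hq, add_mul, Finset.sum_add_distrib]
  | mul_X p n hp =>
    rw [map_mul, Polynomial.derivative_mul, hp, aeval_X]
    have : ∀ i : Fin s, aeval g (pderiv i (p * X n)) * Polynomial.derivative (g i) =
        aeval g (pderiv i p) * Polynomial.derivative (g i) * g n +
          (if i = n then aeval g p * Polynomial.derivative (g n) else 0) := by
      intro i
      rw [pderiv_mul, map_add, map_mul, map_mul, aeval_X]
      by_cases hin : i = n
      · subst hin; simp; ring
      · rw [pderiv_X_of_ne (Ne.symm hin)]; simp [hin]; ring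
    rw [Finset.sum_congr rfl fun i _ => this i, Finset.sum_add_distrib, Finset.sum_mul]
    simp

theorem eval_aeval' (g : Fin s → Polynomial ℝ) (t : ℝ) (D : MvPolynomial (Fin s) ℝ) :
    Polynomial.eval t (aeval g D) = eval (fun i => (g i).eval t) D := by
  induction D using MvPolynomial.induction_on with
  | C a => simp
  | add p q hp hq => simp [hp, hq]
  | mul_X p n hp => simp [hp]

theorem eval_EE_zero {K : Set (Pt s)} (hK : Convex ℝ K) {u : Pt s} (hu : u ∈ K)
    {D : MvPolynomial (Fin s) ℝ} (hD : ∀ x ∈ K, eval x D = 0) :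
    ∀ x ∈ K, eval x (EE u D) = 0 := by
  intro x hx
  let g : Fin s → Polynomial ℝ := fun i => Polynomial.C (x i) + Polynomial.X * Polynomial.C (u i - x i)
  have hq : aeval g D = 0 := by
    refine Polynomial.eq_zero_of_infinite_isRoot _ ?_
    refine Set.Infinite.mono ?_ (Set.Icc_infinite (zero_lt_one (α := ℝ)))
    intro t ht
    show Polynomial.IsRoot _ t
    rw [Polynomial.IsRoot.def, eval_aeval']
    have e : (fun i => (g i).eval t) = (1 - t) • x + t • u := by
      funext i
      simp [g]
      ring
    rw [e]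
    exact hD _ (hK hx hu (by linarith [ht.2]) ht.1 (by ring))
  have h1 := derivative_aeval g D
  rw [hq] at h1
  have h2 := congrArg (Polynomial.eval 0) h1
  rw [Polynomial.derivative_zero, Polynomial.eval_zero, Polynomial.eval_finsetSum] at h2
  unfold EE
  rw [map_sum, h2]
  refine Finset.sum_congr rfl fun i _ => ?_
  rw [Polynomial.eval_mul, eval_aeval', map_mul]
  have e : (fun i => (g i).eval 0) = x := by
    funext i
    simp [g]
  rw [e]
  simp [g]
  ring

/-- the key fact: `E_u` preserves vanishing of order `r` along a convex set containing `u` -/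
theorem VO_EE {r : ℕ} {K : Set (Pt s)} (hK : Convex ℝ K) {u : Pt s} (hu : u ∈ K)
    {D : MvPolynomial (Fin s) ℝ} (hD : VO r K D) : VO r K (EE u D) := by
  induction r generalizing D with
  | zero => exact eval_EE_zero hK hu hD
  | succ r ih =>
    refine ⟨eval_EE_zero hK hu hD.1, fun j => ?_⟩
    rw [pderiv_EE]
    exact VO_sub (ih (hD.2 j)) (hD.2 j)

theorem VO_Bc {r k : ℕ} {K : Set (Pt s)} (hK : Convex ℝ K) {L : List (Pt s)}
    (hL : ∀ u ∈ L, u ∈ K) {D : MvPolynomial (Fin s) ℝ} (hD : VO r K D) :
    VO r K (Bc k L D) := by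
  induction L generalizing k D with
  | nil => exact hD
  | cons u L ih =>
    refine ih (fun v hv => hL v (List.mem_cons_of_mem _ hv)) ?_
    exact VO_add hD (VO_C_mul _ (VO_EE hK (hL u List.mem_cons_self) hD))

theorem totalDegree_pderiv_le' {r : ℕ} {D : MvPolynomial (Fin s) ℝ}
    (hdeg : D.totalDegree ≤ r + 1) (i : Fin s) : (pderiv i D).totalDegree ≤ r := by
  refine Finset.sup_le fun m hm => ?_
  have h1 : m + Finsupp.single i 1 ∈ D.support := by
    rw [mem_support_iff] at hm ⊢
    intro h0
    apply hm
    rw [coeff_pderiv, h0, zero_mul]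
  have h2 := le_totalDegree h1
  rw [Finsupp.sum_add_index' (fun _ => rfl) (fun _ _ _ => rfl),
    Finsupp.sum_single_index rfl] at h2
  omega

theorem eq_zero_of_VO {r : ℕ} {K : Set (Pt s)} (hne : K.Nonempty)
    {D : MvPolynomial (Fin s) ℝ} (hdeg : D.totalDegree ≤ r) (hD : VO r K D) : D = 0 := by
  obtain ⟨x, hx⟩ := hne
  induction r generalizing D with
  | zero =>
    have h1 := totalDegree_eq_zero_iff_eq_C.1 (Nat.le_zero.1 hdeg)
    have h2 := hD x hx
    rw [h1, eval_C] at h2
    rw [h1, h2, C_0]
  | succ r ih =>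
    have h0 : ∀ i, pderiv i D = 0 := fun i => ih (totalDegree_pderiv_le' hdeg i) (hD.2 i)
    have hc : D = C (coeff 0 D) := by
      ext m
      rw [coeff_C]
      by_cases hm : 0 = m
      · rw [if_pos hm, ← hm]
      · rw [if_neg hm]
        obtain ⟨i, hi⟩ : ∃ i, m i ≠ 0 := by
          by_contra hcon
          push Not at hcon
          exact hm (Finsupp.ext fun i => (hcon i).symm)
        have h3 := coeff_pderiv (i := i) D (m - Finsupp.single i 1)
        rw [h0 i, coeff_zero] at h3
        have e : m - Finsupp.single i 1 + Finsupp.single i 1 = m := by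
          ext j
          by_cases hj : j = i
          · subst hj; simp; omega
          · simp [Finsupp.single_eq_of_ne hj]
        rw [e] at h3
        have h4 : ((m - Finsupp.single i 1 : Fin s →₀ ℕ) i : ℝ) + 1 ≠ 0 := by positivity
        exact (mul_eq_zero.1 h3.symm).resolve_right h4
    have h2 := hD.1 x hx
    rw [hc, eval_C] at h2
    rw [hc, h2, C_0]

end Pool.Agent.H84Exp
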