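import Pool.Agent.H84Exp.BOp
import Pool.Agent.H84Exp.VO

/-! # Rigidity -/

namespace Pool.Agent.H84Exp

open MvPolynomial Pool.Agent.H84Spl

variable {s : ℕ}

/-- base case: all cells containing the nonempty list `L` give the same polynomial -/
theorem rg_base {T : Triang s} {r k : ℕ} {f : Pt s → ℝ}
    {P : Finset (Pt s) → MvPolynomial (Fin s) ℝ} (hP : Fam T r k f P) {L : List (Pt s)}
    (hL : L ≠ []) (hlen : L.length + r = k) (X : Finset (Pt s)) : Rg T k P r L X := by
  by_cases h : ∃ σ ∈ T.cells, ∀ u ∈ L, u ∈ σ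
  · obtain ⟨σ₀, hσ₀, hL₀⟩ := h
    refine ⟨Bc k L (P σ₀), ?_, ?_⟩
    · have h1 := totalDegree_Bc_le L (hP.1 σ₀ hσ₀).1
      omega
    · intro w _ σ hσ hLσ _
      have hK : Convex ℝ (convexHull ℝ (σ : Set (Pt s)) ∩ convexHull ℝ (σ₀ : Set (Pt s))) :=
        (convex_convexHull ℝ _).inter (convex_convexHull ℝ _)
      have hLK : ∀ u ∈ L, u ∈ convexHull ℝ (σ : Set (Pt s)) ∩ convexHull ℝ (σ₀ : Set (Pt s)) := by
        intro u hu
        exact ⟨subset_convexHull ℝ _ (hLσ u hu), subset_convexHull ℝ _ (hL₀ u hu)⟩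
      have h1 := VO_Bc (k := k) hK hLK (hP.2 σ hσ σ₀ hσ₀)
      obtain ⟨u, hu⟩ := List.exists_mem_of_ne_nil L hL
      have hdeg : (P σ - P σ₀).totalDegree ≤ k :=
        (totalDegree_sub _ _).trans (max_le (hP.1 σ hσ).1 (hP.1 σ₀ hσ₀).1)
      have h2 : (Bc k L (P σ - P σ₀)).totalDegree ≤ r := by
        have h3 := totalDegree_Bc_le L hdeg
        omega
      have h3 := eq_zero_of_VO ⟨u, hLK u hu⟩ h2 h1
      rw [Bc_sub, sub_eq_zero] at h3
      rw [h3]
  · push Not at h
    refine ⟨0, by simp, ?_⟩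
    intro w _ σ hσ hLσ _
    obtain ⟨u, hu, hu'⟩ := h σ hσ
    exact absurd (hLσ u hu) hu'

/-- the doubling lemma -/
theorem rg_step {T : Triang s} {r k ρ : ℕ} {f : Pt s → ℝ}
    {P : Finset (Pt s) → MvPolynomial (Fin s) ℝ} (hP : Fam T r k f P) {L : List (Pt s)}
    {F X Z : Finset (Pt s)} {Y : Set (Pt s)} (hLF : ∀ u ∈ L, u ∈ F)
    (hlen : L.length + 2 * ρ = k) (hXY : (X : Set (Pt s)) ⊆ Y) (hdet : Det ρ Z Y)
    (hface : ∀ w ∈ X, ∀ z ∈ Z, Face T (insert z (insert w F)))
    (h1 : ∀ w ∈ X, Rg T k P ρ (L ++ List.replicate ρ w) (insert w Z))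
    (h2 : ∀ z ∈ Z, Rg T k P ρ (L ++ List.replicate ρ z) X) :
    Rg T k P (2 * ρ) L X := by
  obtain ⟨ℓ, hℓ, hdet⟩ := hdet
  have h2' : ∀ z : Pt s, ∃ H : MvPolynomial (Fin s) ℝ, H.totalDegree ≤ ρ ∧
      (z ∈ Z → ∀ w ∈ X, ∀ σ ∈ T.cells,
        (∀ u ∈ L ++ List.replicate ρ z, u ∈ σ) → w ∈ σ →
          eval w (Bc k (L ++ List.replicate ρ z) (P σ)) = eval w H) := by
    intro z
    by_cases hz : z ∈ Z
    · obtain ⟨H, hH1, hH2⟩ := h2 z hz
      exact ⟨H, hH1, fun _ => hH2⟩
    · exact ⟨0, by simp, fun h => absurd h hz⟩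
  choose H hH1 hH2 using h2'
  refine ⟨∑ z ∈ Z, ℓ z * H z, ?_, ?_⟩
  · refine totalDegree_finsetSum_le fun z _ => ?_
    refine (totalDegree_mul _ _).trans ?_
    have := hℓ z
    have := hH1 z
    omega
  · intro w hw σ hσ hLσ hwσ
    obtain ⟨Gw, hGw1, hGw2⟩ := h1 w hw
    have h3 : eval w (Bc k (L ++ List.replicate ρ w) (P σ)) = eval w Gw := by
      refine hGw2 w (Finset.mem_insert_self _ _) σ hσ ?_ hwσ
      intro u hu
      rcases List.mem_append.1 hu with hu | hu
      · exact hLσ u hu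
      · rw [List.eq_of_mem_replicate hu]
        exact hwσ
    rw [Bc_append, eval_Bc_replicate] at h3
    rw [h3, hdet Gw hGw1 w (hXY hw), map_sum]
    refine Finset.sum_congr rfl fun z hz => ?_
    rw [map_mul]
    congr 1
    obtain ⟨τ, hτ, hzτ⟩ := hface w hw z hz
    have hz' : z ∈ τ := hzτ (Finset.mem_insert_self _ _)
    have hw' : w ∈ τ := hzτ (Finset.mem_insert_of_mem (Finset.mem_insert_self _ _))
    have hLτ : ∀ u ∈ L, u ∈ τ := fun u hu =>
      hzτ (Finset.mem_insert_of_mem (Finset.mem_insert_of_mem (hLF u hu)))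
    rw [← hGw2 z (Finset.mem_insert_of_mem hz) τ hτ ?_ hz', ← hH2 z hz w hw τ hτ ?_ hw']
    · exact Bc_symm (by omega) z w (hP.1 τ hτ).1
    · intro u hu
      rcases List.mem_append.1 hu with hu | hu
      · exact hLτ u hu
      · rw [List.eq_of_mem_replicate hu]
        exact hz'
    · intro u hu
      rcases List.mem_append.1 hu with hu | hu
      · exact hLτ u hu
      · rw [List.eq_of_mem_replicate hu]
        exact hw'

theorem rigid_of_CC {T : Triang s} {r k : ℕ} {f : Pt s → ℝ}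
    {P : Finset (Pt s) → MvPolynomial (Fin s) ℝ} (hP : Fam T r k f P) {Y : Set (Pt s)}
    (t : ℕ) (F X : Finset (Pt s)) (hCC : CC (Face T) r Y t F X)
    (hXY : (X : Set (Pt s)) ⊆ Y) (L : List (Pt s)) (hL : L ≠ []) (hLF : ∀ u ∈ L, u ∈ F)
    (hlen : L.length + 2 ^ t * r = k) : Rg T k P (2 ^ t * r) L X := by
  induction t generalizing F X L with
  | zero =>
    rw [pow_zero, one_mul] at hlen ⊢
    exact rg_base hP hL hlen X
  | succ t ih =>
    obtain ⟨Z, hZY, hdet, hface, hc1, hc2⟩ := hCC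
    have hpow : 2 ^ (t + 1) * r = 2 * (2 ^ t * r) := by ring
    rw [hpow] at hlen ⊢
    have hface' : ∀ w ∈ X, ∀ z ∈ Z, Face T (insert z (insert w F)) := by
      intro w hw z hz
      obtain ⟨σ, hσ, hs⟩ := hface w hw z hz
      refine ⟨σ, hσ, fun u hu => hs ?_⟩
      simpa [Finset.mem_insert] using hu
    refine rg_step hP hLF hlen hXY hdet hface' ?_ ?_
    · intro w hw
      have h1 := ih _ _ (hc1 w hw) ?_ (L ++ List.replicate (2 ^ t * r) w) ?_ ?_ ?_
      · convert h1 using 1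
      · intro x hx
        rcases Finset.mem_insert.1 (Finset.mem_coe.1 hx) with rfl | hx
        · exact hXY hw
        · exact hZY hx
      · intro h
        exact hL (List.append_eq_nil_iff.1 h).1
      · intro u hu
        rcases List.mem_append.1 hu with hu | hu
        · exact Finset.mem_insert_of_mem (hLF u hu)
        · rw [List.eq_of_mem_replicate hu]
          exact Finset.mem_insert_self _ _
      · rw [List.length_append, List.length_replicate]
        omega
    · intro z hz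
      refine ih _ _ (hc2 z hz) hXY (L ++ List.replicate (2 ^ t * r) z) ?_ ?_ ?_
      · intro h
        exact hL (List.append_eq_nil_iff.1 h).1
      · intro u hu
        rcases List.mem_append.1 hu with hu | hu
        · exact Finset.mem_insert_of_mem (hLF u hu)
        · rw [List.eq_of_mem_replicate hu]
          exact Finset.mem_insert_self _ _
      · rw [List.length_append, List.length_replicate]
        omega

end Pool.Agent.H84Exp
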