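import Pool.Agent.H84Exp.Def

/-! # Strict separation of two simplices outside their common face -/

namespace Pool.Agent.H84Exp

variable {s : ℕ}

theorem indep_weights {S : Finset (Pt s)} (hS : AffineIndependent ℝ (fun v : S => (v : Pt s)))
    (w : Pt s → ℝ) (h0 : ∑ x ∈ S, w x = 0) (h1 : ∑ x ∈ S, w x • x = 0) : ∀ x ∈ S, w x = 0 := by
  intro x hx
  have h := (affineIndependent_iff.1 hS) Finset.univ (fun v => w v) (by
    rw [Finset.sum_coe_sort S w]; exact h0) (by
    rw [Finset.sum_coe_sort S (fun v => w v • v)]; exact h1) ⟨x, hx⟩ (Finset.mem_univ _)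
  exact h

/-- A relation between the points of two simplices meeting in the common face. -/
theorem weights_zero [DecidableEq (Pt s)] (S G : Finset (Pt s))
    (hS : AffineIndependent ℝ (fun v : S => (v : Pt s)))
    (hG : AffineIndependent ℝ (fun v : G => (v : Pt s)))
    (h : convexHull ℝ (S : Set (Pt s)) ∩ convexHull ℝ (G : Set (Pt s)) =
      convexHull ℝ ((S : Set (Pt s)) ∩ (G : Set (Pt s))))
    (α β : Pt s → ℝ) (hα : ∀ x ∈ S, 0 ≤ α x) (hβ : ∀ x ∈ G, 0 ≤ β x)
    (h0 : ∑ x ∈ S, α x = ∑ x ∈ G, β x) (h1 : ∑ x ∈ S, α x • x = ∑ x ∈ G, β x • x) :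
    (∀ x ∈ S, x ∉ G → α x = 0) ∧ (∀ x ∈ G, x ∉ S → β x = 0) := by
  rcases (Finset.sum_nonneg hα).eq_or_lt with ht | ht
  · have h2 := (Finset.sum_eq_zero_iff_of_nonneg hα).1 ht.symm
    have h3 := (Finset.sum_eq_zero_iff_of_nonneg hβ).1 (h0 ▸ ht.symm)
    exact ⟨fun x hx _ => h2 x hx, fun x hx _ => h3 x hx⟩
  · set t := ∑ x ∈ S, α x with htd
    set p : Pt s := t⁻¹ • ∑ x ∈ S, α x • x with hp
    have hpS : p ∈ convexHull ℝ (S : Set (Pt s)) := by
      rw [Finset.mem_convexHull']
      refine ⟨fun x => t⁻¹ * α x, fun x hx => mul_nonneg (inv_nonneg.2 ht.le) (hα x hx), ?_, ?_⟩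
      · rw [← Finset.mul_sum, ← htd, inv_mul_cancel₀ ht.ne']
      · rw [hp, Finset.smul_sum]
        exact Finset.sum_congr rfl fun x _ => by rw [mul_smul]
    have hpG : p ∈ convexHull ℝ (G : Set (Pt s)) := by
      rw [Finset.mem_convexHull']
      refine ⟨fun x => t⁻¹ * β x, fun x hx => mul_nonneg (inv_nonneg.2 ht.le) (hβ x hx), ?_, ?_⟩
      · rw [← Finset.mul_sum, ← h0, inv_mul_cancel₀ ht.ne']
      · rw [hp, h1, Finset.smul_sum]
        exact Finset.sum_congr rfl fun x _ => by rw [mul_smul]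
    have hpC : p ∈ convexHull ℝ ((S ∩ G : Finset (Pt s)) : Set (Pt s)) := by
      rw [Finset.coe_inter, ← h]; exact ⟨hpS, hpG⟩
    rw [Finset.mem_convexHull'] at hpC
    obtain ⟨γ, -, hγ1, hγp⟩ := hpC
    set γ' : Pt s → ℝ := fun x => if x ∈ S ∩ G then γ x else 0 with hγ'
    have hsum : ∀ T : Finset (Pt s), S ∩ G ⊆ T → ∑ x ∈ T, γ' x = 1 := by
      intro T hT
      rw [← hγ1, ← Finset.sum_subset hT (f := γ')
        (fun x _ hx => by simp only [hγ', if_neg hx])]
      exact Finset.sum_congr rfl fun x hx => by simp only [hγ', if_pos hx]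
    have hsum2 : ∀ T : Finset (Pt s), S ∩ G ⊆ T → ∑ x ∈ T, γ' x • x = p := by
      intro T hT
      rw [← hγp, ← Finset.sum_subset hT (f := fun x => γ' x • x)
        (fun x _ hx => by simp only [hγ', if_neg hx, zero_smul])]
      exact Finset.sum_congr rfl fun x hx => by simp only [hγ', if_pos hx]
    constructor
    · intro x hx hxG
      have h2 := indep_weights hS (fun x => t⁻¹ * α x - γ' x)
        (by rw [Finset.sum_sub_distrib, ← Finset.mul_sum, ← htd, inv_mul_cancel₀ ht.ne',
              hsum S Finset.inter_subset_left, sub_self])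
        (by
          have : ∀ x ∈ S, (t⁻¹ * α x - γ' x) • x = t⁻¹ • (α x • x) - γ' x • x := by
            intro x _; rw [sub_smul, mul_smul]
          rw [Finset.sum_congr rfl this, Finset.sum_sub_distrib, ← Finset.smul_sum,
            hsum2 S Finset.inter_subset_left, ← hp, sub_self]) x hx
      have h3 : γ' x = 0 := by
        simp only [hγ']
        rw [if_neg]
        intro h; exact hxG (Finset.mem_inter.1 h).2
      simp only [h3, sub_zero] at h2
      exact (mul_eq_zero.1 h2).resolve_left (inv_ne_zero ht.ne')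
    · intro x hx hxS
      have h2 := indep_weights hG (fun x => t⁻¹ * β x - γ' x)
        (by rw [Finset.sum_sub_distrib, ← Finset.mul_sum, ← h0, inv_mul_cancel₀ ht.ne',
              hsum G Finset.inter_subset_right, sub_self])
        (by
          have : ∀ x ∈ G, (t⁻¹ * β x - γ' x) • x = t⁻¹ • (β x • x) - γ' x • x := by
            intro x _; rw [sub_smul, mul_smul]
          rw [Finset.sum_congr rfl this, Finset.sum_sub_distrib, ← Finset.smul_sum,
            hsum2 G Finset.inter_subset_right, ← h1, ← hp, sub_self]) x hx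
      have h3 : γ' x = 0 := by
        simp only [hγ']
        rw [if_neg]
        intro h; exact hxS (Finset.mem_inter.1 h).1
      simp only [h3, sub_zero] at h2
      exact (mul_eq_zero.1 h2).resolve_left (inv_ne_zero ht.ne')

theorem sep (S G : Finset (Pt s)) (hS : AffineIndependent ℝ (fun v : S => (v : Pt s)))
    (hG : AffineIndependent ℝ (fun v : G => (v : Pt s)))
    (h : convexHull ℝ (S : Set (Pt s)) ∩ convexHull ℝ (G : Set (Pt s)) =
      convexHull ℝ ((S : Set (Pt s)) ∩ (G : Set (Pt s)))) :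
    ∃ (f : (Pt s) →L[ℝ] ℝ) (c : ℝ), (∀ x ∈ S, x ∈ G → f x = c) ∧
      (∀ x ∈ S, x ∉ G → c < f x) ∧ (∀ x ∈ G, x ∉ S → f x < c) := by
  classical
  set A : Finset (Pt s × ℝ) := (S \ G).image (fun x => (x, (1 : ℝ))) with hA
  set B : Finset (Pt s × ℝ) := (G \ S).image (fun x => (-x, (-1 : ℝ))) with hB
  have hdis : Disjoint A B := by
    rw [Finset.disjoint_left]
    intro y hyA hyB
    rw [hA, Finset.mem_image] at hyA
    rw [hB, Finset.mem_image] at hyB
    obtain ⟨x, -, rfl⟩ := hyA
    obtain ⟨x', -, h'⟩ := hyB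
    have := congrArg Prod.snd h'
    norm_num at this
  set Q : Submodule ℝ (Pt s × ℝ) :=
    Submodule.span ℝ ((fun x : Pt s => ((x, (1 : ℝ)) : Pt s × ℝ)) '' ((S ∩ G : Finset (Pt s)) : Set (Pt s)))
    with hQ
  have hdisj : Disjoint (convexHull ℝ ((A ∪ B : Finset (Pt s × ℝ)) : Set (Pt s × ℝ)))
      (Q : Set (Pt s × ℝ)) := by
    rw [Set.disjoint_left]
    intro y hy hyQ
    rw [Finset.mem_convexHull'] at hy
    obtain ⟨w, hw0, hw1, hwy⟩ := hy
    rw [SetLike.mem_coe, hQ, Submodule.mem_span_image_finset_iff_exists_fun'] at hyQ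
    obtain ⟨μ, hμ⟩ := hyQ
    have hinjA : Set.InjOn (fun x : Pt s => ((x, (1 : ℝ)) : Pt s × ℝ)) (S \ G : Finset (Pt s)) := by
      intro x _ y _ hxy
      exact congrArg Prod.fst hxy
    have hinjB : Set.InjOn (fun x : Pt s => ((-x, (-1 : ℝ)) : Pt s × ℝ)) (G \ S : Finset (Pt s)) := by
      intro x _ y _ hxy
      exact neg_injective (congrArg Prod.fst hxy)
    rw [Finset.sum_union hdis, hA, hB, Finset.sum_image hinjA, Finset.sum_image hinjB] at hwy hw1
    set a : Pt s → ℝ := fun x => w (x, 1) with ha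
    set b : Pt s → ℝ := fun x => w (-x, -1) with hb
    have ha0 : ∀ x ∈ S \ G, 0 ≤ a x := fun x hx =>
      hw0 _ (Finset.mem_union_left _ (Finset.mem_image_of_mem _ hx))
    have hb0 : ∀ x ∈ G \ S, 0 ≤ b x := fun x hx =>
      hw0 _ (Finset.mem_union_right _ (Finset.mem_image_of_mem _ hx))
    have hfst := congrArg Prod.fst (hwy.trans hμ.symm)
    have hsnd := congrArg Prod.snd (hwy.trans hμ.symm)
    simp only [Prod.fst_add, Prod.fst_sum, Prod.smul_fst, Prod.snd_add, Prod.snd_sum,
      Prod.smul_snd, smul_eq_mul, mul_one, smul_neg, mul_neg, Finset.sum_neg_distrib] at hfst hsnd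
    set α : Pt s → ℝ := fun x => if x ∈ G then max (-μ x) 0 else a x with hα
    set β : Pt s → ℝ := fun x => if x ∈ S then max (μ x) 0 else b x with hβ
    have hmm : ∀ r : ℝ, max r 0 - max (-r) 0 = r := by
      intro r
      rcases le_total r 0 with hr | hr
      · rw [max_eq_right hr, max_eq_left (by linarith)]; ring
      · rw [max_eq_left hr, max_eq_right (by linarith)]; ring
    have hSd : ∀ (M : Type) [AddCommMonoid M] (φ : Pt s → M),
        ∑ x ∈ S, φ x = ∑ x ∈ S \ G, φ x + ∑ x ∈ S ∩ G, φ x := by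
      intro M _ φ
      rw [← Finset.sum_union (Finset.disjoint_sdiff_inter S G), Finset.sdiff_union_inter]
    have hGd : ∀ (M : Type) [AddCommMonoid M] (φ : Pt s → M),
        ∑ x ∈ G, φ x = ∑ x ∈ G \ S, φ x + ∑ x ∈ S ∩ G, φ x := by
      intro M _ φ
      rw [Finset.inter_comm, ← Finset.sum_union (Finset.disjoint_sdiff_inter G S),
        Finset.sdiff_union_inter]
    have e1 : ∀ x ∈ S \ G, α x = a x := fun x hx => by
      simp only [hα, if_neg (Finset.mem_sdiff.1 hx).2]
    have e2 : ∀ x ∈ S ∩ G, α x = max (-μ x) 0 := fun x hx => by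
      simp only [hα, if_pos (Finset.mem_inter.1 hx).2]
    have e3 : ∀ x ∈ G \ S, β x = b x := fun x hx => by
      simp only [hβ, if_neg (Finset.mem_sdiff.1 hx).2]
    have e4 : ∀ x ∈ S ∩ G, β x = max (μ x) 0 := fun x hx => by
      simp only [hβ, if_pos (Finset.mem_inter.1 hx).1]
    have hμs : ∑ x ∈ S ∩ G, μ x = ∑ x ∈ S ∩ G, max (μ x) 0 - ∑ x ∈ S ∩ G, max (-μ x) 0 := by
      rw [← Finset.sum_sub_distrib]
      exact Finset.sum_congr rfl fun x _ => (hmm _).symm
    have hμv : ∑ x ∈ S ∩ G, μ x • x =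
        ∑ x ∈ S ∩ G, max (μ x) 0 • x - ∑ x ∈ S ∩ G, max (-μ x) 0 • x := by
      rw [← Finset.sum_sub_distrib]
      exact Finset.sum_congr rfl fun x _ => by rw [← sub_smul, hmm]
    have key := weights_zero S G hS hG h α β
      (by
        intro x hx
        by_cases hxG : x ∈ G
        · simp only [hα, if_pos hxG]; exact le_max_right _ _
        · simp only [hα, if_neg hxG]; exact ha0 x (Finset.mem_sdiff.2 ⟨hx, hxG⟩))
      (by
        intro x hx
        by_cases hxS : x ∈ S
        · simp only [hβ, if_pos hxS]; exact le_max_right _ _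
        · simp only [hβ, if_neg hxS]; exact hb0 x (Finset.mem_sdiff.2 ⟨hx, hxS⟩))
      (by
        rw [hSd, hGd, Finset.sum_congr rfl e1, Finset.sum_congr rfl e2, Finset.sum_congr rfl e3,
          Finset.sum_congr rfl e4]
        linarith)
      (by
        rw [hSd, hGd, Finset.sum_congr rfl (fun x hx => by rw [e1 x hx] :
            ∀ x ∈ S \ G, α x • x = a x • x),
          Finset.sum_congr rfl (fun x hx => by rw [e2 x hx] :
            ∀ x ∈ S ∩ G, α x • x = max (-μ x) 0 • x),
          Finset.sum_congr rfl (fun x hx => by rw [e3 x hx] :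
            ∀ x ∈ G \ S, β x • x = b x • x),
          Finset.sum_congr rfl (fun x hx => by rw [e4 x hx] :
            ∀ x ∈ S ∩ G, β x • x = max (μ x) 0 • x)]
        rw [hμv] at hfst
        have h5 : ∑ x ∈ S \ G, a x • x = ∑ x ∈ S ∩ G, max (μ x) 0 • x -
            ∑ x ∈ S ∩ G, max (-μ x) 0 • x + ∑ x ∈ G \ S, b x • x := by
          rw [← hfst]; abel
        rw [h5]; abel)
    have hs1 : ∑ x ∈ S \ G, a x = 0 := Finset.sum_eq_zero fun x hx => by
      rw [← e1 x hx]; exact key.1 x (Finset.mem_sdiff.1 hx).1 (Finset.mem_sdiff.1 hx).2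
    have hs2 : ∑ x ∈ G \ S, b x = 0 := Finset.sum_eq_zero fun x hx => by
      rw [← e3 x hx]; exact key.2 x (Finset.mem_sdiff.1 hx).1 (Finset.mem_sdiff.1 hx).2
    have : (0 : ℝ) + 0 = 1 := by
      rw [← hw1]
      congr 1
      · exact hs1.symm
      · exact hs2.symm
    norm_num at this
  obtain ⟨f, u, v, hfu, huv, hfv⟩ := geometric_hahn_banach_compact_closed
    (convex_convexHull ℝ ((A ∪ B : Finset (Pt s × ℝ)) : Set (Pt s × ℝ)))
    ((A ∪ B).finite_toSet.isCompact_convexHull ℝ) Q.convex Q.closed_of_finiteDimensional hdisj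
  have hfQ : ∀ q ∈ Q, f q = 0 := by
    intro q hq
    by_contra hne
    have h1 := hfv _ (Q.smul_mem (v / f q) hq)
    rw [map_smul, smul_eq_mul, div_mul_cancel₀ _ hne] at h1
    exact lt_irrefl _ h1
  have hv0 : v < 0 := by
    have := hfv 0 Q.zero_mem
    rwa [map_zero] at this
  have hu0 : u < 0 := huv.trans hv0
  have hsplit : ∀ x : Pt s, ∀ r : ℝ, f (x, r) = f (x, 0) + f (0, r) := by
    intro x r
    rw [← map_add]
    simp
  refine ⟨-(f.comp (ContinuousLinearMap.inl ℝ (Pt s) ℝ)), f (0, 1), ?_, ?_, ?_⟩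
  · intro x hxS hxG
    have h1 : f (x, 1) = 0 := by
      apply hfQ
      rw [hQ]
      exact Submodule.subset_span ⟨x, Finset.mem_coe.2 (Finset.mem_inter.2 ⟨hxS, hxG⟩), rfl⟩
    rw [hsplit] at h1
    simp only [_root_.neg_apply, ContinuousLinearMap.comp_apply,
      ContinuousLinearMap.inl_apply]
    linarith
  · intro x hxS hxG
    have h1 : f (x, 1) < u := hfu _ (subset_convexHull ℝ _ (Finset.mem_coe.2
      (Finset.mem_union_left _ (Finset.mem_image.2 ⟨x, Finset.mem_sdiff.2 ⟨hxS, hxG⟩, rfl⟩))))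
    rw [hsplit] at h1
    simp only [_root_.neg_apply, ContinuousLinearMap.comp_apply,
      ContinuousLinearMap.inl_apply]
    linarith
  · intro x hxG hxS
    have h1 : f (-x, -1) < u := hfu _ (subset_convexHull ℝ _ (Finset.mem_coe.2
      (Finset.mem_union_right _ (Finset.mem_image.2 ⟨x, Finset.mem_sdiff.2 ⟨hxG, hxS⟩, rfl⟩))))
    have h2 : f (-x, -1) = -(f (x, 1)) := by
      rw [← map_neg]; rfl
    rw [h2, hsplit] at h1
    simp only [_root_.neg_apply, ContinuousLinearMap.comp_apply,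
      ContinuousLinearMap.inl_apply]
    linarith

end Pool.Agent.H84Exp
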