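import Pool.Agent.H84Exp.Def

/-! # Vanishing derivatives of a polynomial function: from `iteratedFDeriv` to `VO` -/

namespace Pool.Agent.H84Exp

open MvPolynomial Pool.Agent.H84Spl

variable {s : ℕ}

theorem contDiff_eval (D : MvPolynomial (Fin s) ℝ) {n : WithTop ℕ∞} :
    ContDiff ℝ n (fun y : Pt s => eval y D) := by
  have h := AnalyticOnNhd.eval_mvPolynomial (𝕜 := ℝ) D
  rw [← contDiffOn_univ]
  exact h.contDiffOn uniqueDiffOn_univ

theorem fderiv_eval_single (D : MvPolynomial (Fin s) ℝ) (i : Fin s) (x : Pt s) :
    fderiv ℝ (fun y : Pt s => eval y D) x (Pi.single i 1) = eval x (pderiv i D) := by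
  classical
  have hd : ∀ D : MvPolynomial (Fin s) ℝ, DifferentiableAt ℝ (fun y : Pt s => eval y D) x :=
    fun D => (contDiff_eval (n := 1) D).differentiable (by simp) x
  induction D using MvPolynomial.induction_on with
  | C a =>
    simp
  | add p q hp hq =>
    have : (fun y : Pt s => eval y (p + q)) = (fun y => eval y p) + (fun y => eval y q) := by
      funext y; simp
    rw [this, fderiv_add (hd p) (hd q)]
    simp [hp, hq]
  | mul_X p j hp =>
    have e : (fun y : Pt s => eval y (p * X j)) = (fun y => eval y p) * (fun y => y j) := by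
      funext y; simp
    have hj : DifferentiableAt ℝ (fun y : Pt s => y j) x := by fun_prop
    have hj2 : fderiv ℝ (fun y : Pt s => y j) x (Pi.single i 1) = if j = i then 1 else 0 := by
      have : fderiv ℝ (fun y : Pt s => y j) x = ContinuousLinearMap.proj j :=
        (ContinuousLinearMap.proj (R := ℝ) (φ := fun _ : Fin s => ℝ) j).hasFDerivAt.fderiv
      rw [this]
      simp [Pi.single_apply]
    rw [e, fderiv_mul (hd p) hj]
    simp only [_root_.add_apply, _root_.smul_apply, hp, hj2,
      Derivation.leibniz, pderiv_X, map_add, smul_eq_mul, map_mul, eval_X]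
    by_cases hji : j = i
    · subst hji; simp
    · simp [hji]

theorem VO_of_iteratedFDeriv {r : ℕ} {K : Set (Pt s)} {D : MvPolynomial (Fin s) ℝ}
    (h : ∀ x ∈ K, ∀ m ≤ r, iteratedFDeriv ℝ m (fun y : Pt s => eval y D) x = 0) :
    VO r K D := by
  induction r generalizing D with
  | zero =>
    intro x hx
    have := h x hx 0 le_rfl
    have h2 := congrArg (fun T => T (fun _ => 0)) this
    simpa using h2
  | succ r ih =>
    refine ⟨fun x hx => ?_, fun i => ih fun x hx m hm => ?_⟩
    · have := h x hx 0 (Nat.zero_le _)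
      have h2 := congrArg (fun T => T (fun _ => 0)) this
      simpa using h2
    · have e : (fun y : Pt s => eval y (pderiv i D)) =
          (ContinuousLinearMap.apply ℝ ℝ (Pi.single i 1 : Pt s)) ∘
            (fderiv ℝ (fun y : Pt s => eval y D)) := by
        funext y
        simp [fderiv_eval_single]
      have hc : ContDiff ℝ (m : WithTop ℕ∞) (fderiv ℝ (fun y : Pt s => eval y D)) :=
        (contDiff_eval (n := ((m : ℕ) : WithTop ℕ∞) + 1) D).fderiv_right le_rfl
      rw [e, ContinuousLinearMap.iteratedFDeriv_comp_left _ hc.contDiffAt le_rfl]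
      have h0 : iteratedFDeriv ℝ m (fderiv ℝ (fun y : Pt s => eval y D)) x = 0 := by
        rw [← norm_eq_zero, norm_iteratedFDeriv_fderiv, h x hx (m + 1) (by omega), norm_zero]
      rw [h0]
      ext v
      simp

end Pool.Agent.H84Exp
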